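import Mathlib

set_option autoImplicit false

open scoped TensorProduct

namespace Pool.Agent.H130R4.DA

universe u v w

section Basic

variable (𝕜 : Type w) [RCLike 𝕜] (X : Type u) [NormedAddCommGroup X] [NormedSpace 𝕜 X]

/-- The normed dual space of `X` (bounded linear functionals with the operator norm). -/
def DualSpace : Type (max u w) := StrongDual 𝕜 X

noncomputable instance : NormedAddCommGroup (DualSpace 𝕜 X) :=
  (inferInstance : NormedAddCommGroup (StrongDual 𝕜 X))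

noncomputable instance : NormedSpace 𝕜 (DualSpace 𝕜 X) :=
  (inferInstance : NormedSpace 𝕜 (StrongDual 𝕜 X))

variable {𝕜 X}

/-- The value `f x` of a functional. -/
def DualSpace.eval (f : DualSpace 𝕜 X) (x : X) : 𝕜 := (show StrongDual 𝕜 X from f) x

/-- The operator has one-dimensional range. -/
def RankOne (T : X →L[𝕜] X) : Prop :=
  Module.finrank 𝕜 (LinearMap.range (T : X →ₗ[𝕜] X)) = 1

/-- The operator has finite-dimensional range. -/
def FiniteRank (T : X →L[𝕜] X) : Prop :=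
  FiniteDimensional 𝕜 (LinearMap.range (T : X →ₗ[𝕜] X))

variable (𝕜) in
/-- The canonical image of `x` in the bidual: evaluation at `x`. -/
noncomputable def canon (x : X) : DualSpace 𝕜 (DualSpace 𝕜 X) :=
  LinearMap.mkContinuous (E := DualSpace 𝕜 X) (F := 𝕜)
    { toFun := fun f => f.eval x
      map_add' := fun _ _ => rfl
      map_smul' := fun _ _ => rfl } ‖x‖ (fun f => by
        rw [mul_comm]
        exact (show StrongDual 𝕜 X from f).le_opNorm x)

/-- `X** = X + Z`. -/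
def SpansWith (Z : Submodule 𝕜 (DualSpace 𝕜 (DualSpace 𝕜 X))) : Prop :=
  ∀ ξ : DualSpace 𝕜 (DualSpace 𝕜 X), ∃ x : X, ∃ z ∈ Z, ξ = canon 𝕜 x + z

/-- `‖x + z‖ = ‖x‖ + ‖z‖` for `x` in `X` and `z` in `Z`. -/
def NormAdditive (Z : Submodule 𝕜 (DualSpace 𝕜 (DualSpace 𝕜 X))) : Prop :=
  ∀ x : X, ∀ z ∈ Z, ‖canon 𝕜 x + z‖ = ‖x‖ + ‖z‖

variable (𝕜 X)

/-- The Daugavet property of a normed space over `𝕜` (real or complex): `‖I + T‖ = 1 + ‖T‖`
for every rank-one bounded operator `T`. -/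
def DaugavetProperty : Prop :=
  ∀ T : X →L[𝕜] X, RankOne T → ‖ContinuousLinearMap.id 𝕜 X + T‖ = 1 + ‖T‖

/-- `X` is `L`-embedded: there is a closed subspace `Z` of the bidual with `X** = X + Z` and
`‖x + z‖ = ‖x‖ + ‖z‖` for `x` in (the canonical copy of) `X` and `z` in `Z`. -/
def LEmbedded : Prop :=
  ∃ Z : Submodule 𝕜 (DualSpace 𝕜 (DualSpace 𝕜 X)),
    IsClosed (Z : Set (DualSpace 𝕜 (DualSpace 𝕜 X))) ∧ SpansWith Z ∧ NormAdditive Z

/-- The metric approximation property. -/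
def MetricApproximationProperty : Prop :=
  ∀ K : Set X, IsCompact K → ∀ ε : ℝ, 0 < ε → ∃ S : X →L[𝕜] X,
    FiniteRank S ∧ ‖S‖ ≤ 1 ∧ ∀ x ∈ K, ‖S x - x‖ < ε

end Basic

section Proj

variable (𝕜 : Type w) [RCLike 𝕜] (X : Type u) [NormedAddCommGroup X] [NormedSpace 𝕜 X]
  (Y : Type v) [NormedAddCommGroup Y] [NormedSpace 𝕜 Y]

/-- The algebraic tensor product, to be given the projective norm. -/
def ProjTensor : Type (max u v) := X ⊗[𝕜] Y

noncomputable instance : AddCommGroup (ProjTensor 𝕜 X Y) :=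
  (inferInstance : AddCommGroup (X ⊗[𝕜] Y))

noncomputable instance : Module 𝕜 (ProjTensor 𝕜 X Y) :=
  (inferInstance : Module 𝕜 (X ⊗[𝕜] Y))

variable {X Y}

/-- The elementary tensor `x ⊗ y`. -/
def ProjTensor.tmul (x : X) (y : Y) : ProjTensor 𝕜 X Y := x ⊗ₜ[𝕜] y

variable {𝕜}

/-- The sums `∑ ‖x i‖ ‖y i‖` over all representations `t = ∑ x i ⊗ y i`. -/
def ProjTensor.repSums (t : ProjTensor 𝕜 X Y) : Set ℝ :=
  {r : ℝ | ∃ (n : ℕ) (x : Fin n → X) (y : Fin n → Y),
    t = ∑ i, ProjTensor.tmul 𝕜 (x i) (y i) ∧ r = ∑ i, ‖x i‖ * ‖y i‖}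

/-- The projective norm: the infimum of `∑ ‖x i‖ ‖y i‖` over all representations
`t = ∑ x i ⊗ y i`. -/
noncomputable def ProjTensor.projNorm (t : ProjTensor 𝕜 X Y) : ℝ := sInf t.repSums

theorem ProjTensor.repSums_nonempty (t : ProjTensor 𝕜 X Y) : t.repSums.Nonempty := by
  have h : ∀ s : X ⊗[𝕜] Y, ∃ (n : ℕ) (x : Fin n → X) (y : Fin n → Y),
      s = ∑ i, (x i) ⊗ₜ[𝕜] (y i) := by
    intro s
    induction s using TensorProduct.induction_on with
    | zero => exact ⟨0, fun _ => 0, fun _ => 0, by simp⟩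
    | tmul x y => exact ⟨1, fun _ => x, fun _ => y, by simp⟩
    | add a b ha hb =>
      obtain ⟨m, x, y, h⟩ := ha
      obtain ⟨n, x', y', h'⟩ := hb
      exact ⟨m + n, Fin.append x x', Fin.append y y', by simp [Fin.sum_univ_add, h, h']⟩
  obtain ⟨n, x, y, h⟩ := h t
  exact ⟨_, n, x, y, h, rfl⟩

theorem ProjTensor.nonneg_of_mem_repSums {t : ProjTensor 𝕜 X Y} {r : ℝ} (h : r ∈ t.repSums) :
    0 ≤ r := by
  obtain ⟨n, x, y, -, rfl⟩ := h
  positivity

theorem ProjTensor.bddBelow_repSums (t : ProjTensor 𝕜 X Y) : BddBelow t.repSums :=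
  ⟨0, fun _ h => ProjTensor.nonneg_of_mem_repSums h⟩

theorem ProjTensor.projNorm_nonneg (t : ProjTensor 𝕜 X Y) : 0 ≤ t.projNorm :=
  le_csInf t.repSums_nonempty fun _ h => ProjTensor.nonneg_of_mem_repSums h

theorem ProjTensor.projNorm_add_le (s t : ProjTensor 𝕜 X Y) :
    (s + t).projNorm ≤ s.projNorm + t.projNorm := by
  refine le_of_forall_pos_le_add fun ε hε => ?_
  obtain ⟨r, hr, hr'⟩ := exists_lt_of_csInf_lt s.repSums_nonempty
    (show sInf s.repSums < s.projNorm + ε / 2 by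
      have : s.projNorm = sInf s.repSums := rfl
      linarith)
  obtain ⟨r', hr2, hr2'⟩ := exists_lt_of_csInf_lt t.repSums_nonempty
    (show sInf t.repSums < t.projNorm + ε / 2 by
      have : t.projNorm = sInf t.repSums := rfl
      linarith)
  have h : r + r' ∈ (s + t).repSums := by
    obtain ⟨m, x, y, h1, rfl⟩ := hr
    obtain ⟨n, x', y', h2, rfl⟩ := hr2
    exact ⟨m + n, Fin.append x x', Fin.append y y', by simp [Fin.sum_univ_add, h1, h2],
      by simp [Fin.sum_univ_add]⟩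
  have h3 : (s + t).projNorm ≤ r + r' := csInf_le (s + t).bddBelow_repSums h
  linarith

theorem ProjTensor.projNorm_smul_le (c : 𝕜) (t : ProjTensor 𝕜 X Y) :
    (c • t).projNorm ≤ ‖c‖ * t.projNorm := by
  refine le_of_forall_pos_le_add fun ε hε => ?_
  obtain ⟨r, hr, hr'⟩ := exists_lt_of_csInf_lt t.repSums_nonempty
    (show sInf t.repSums < t.projNorm + ε / (‖c‖ + 1) by
      have : t.projNorm = sInf t.repSums := rfl
      have : 0 < ε / (‖c‖ + 1) := by positivity
      linarith)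
  have h : ‖c‖ * r ∈ (c • t).repSums := by
    obtain ⟨m, x, y, h1, rfl⟩ := hr
    refine ⟨m, fun i => c • x i, y, ?_, ?_⟩
    · rw [h1, Finset.smul_sum]
      rfl
    · rw [Finset.mul_sum]
      exact Finset.sum_congr rfl fun i _ => by rw [norm_smul]; ring
  have h3 : (c • t).projNorm ≤ ‖c‖ * r := csInf_le (c • t).bddBelow_repSums h
  have h4 : ‖c‖ * r ≤ ‖c‖ * (t.projNorm + ε / (‖c‖ + 1)) :=
    mul_le_mul_of_nonneg_left hr'.le (norm_nonneg c)
  have h5 : ‖c‖ * (ε / (‖c‖ + 1)) ≤ ε := by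
    rw [mul_div_assoc', div_le_iff₀ (by positivity)]
    nlinarith [norm_nonneg c]
  nlinarith

theorem ProjTensor.projNorm_zero : (0 : ProjTensor 𝕜 X Y).projNorm = 0 := by
  refine le_antisymm ?_ (ProjTensor.projNorm_nonneg _)
  refine csInf_le (ProjTensor.bddBelow_repSums _) ⟨0, fun _ => 0, fun _ => 0, by simp, by simp⟩

/-- The projective norm as a seminorm. -/
noncomputable def ProjTensor.projSeminorm (𝕜 : Type w) [RCLike 𝕜] (X : Type u)
    [NormedAddCommGroup X] [NormedSpace 𝕜 X] (Y : Type v) [NormedAddCommGroup Y]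
    [NormedSpace 𝕜 Y] : Seminorm 𝕜 (ProjTensor 𝕜 X Y) :=
  Seminorm.ofSMulLE ProjTensor.projNorm ProjTensor.projNorm_zero ProjTensor.projNorm_add_le
    ProjTensor.projNorm_smul_le

noncomputable instance : SeminormedAddCommGroup (ProjTensor 𝕜 X Y) :=
  (ProjTensor.projSeminorm 𝕜 X Y).toAddGroupSeminorm.toSeminormedAddCommGroup

theorem ProjTensor.norm_def (t : ProjTensor 𝕜 X Y) : ‖t‖ = t.projNorm := rfl

noncomputable instance : NormedSpace 𝕜 (ProjTensor 𝕜 X Y) where
  norm_smul_le c t := ProjTensor.projNorm_smul_le c t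

variable (𝕜 X Y)

/-- The completed projective tensor product. -/
abbrev ProjectiveTensorProduct : Type (max u v) :=
  UniformSpace.Completion (ProjTensor 𝕜 X Y)

end Proj

end Pool.Agent.H130R4.DA
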