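import Mathlib
import Pool.Agent.H130R4.DADefs

set_option autoImplicit false

open Filter Topology

namespace Pool.Agent.H130R4.DA

section HB
variable {𝕜 : Type*} [RCLike 𝕜]

theorem helly_ext {V E : Type*} [AddCommGroup V] [Module 𝕜 V] [NormedAddCommGroup E]
    [NormedSpace 𝕜 E]
    (T : V →ₗ[𝕜] E) (L : V →ₗ[𝕜] 𝕜) (C : ℝ) (hC : 0 ≤ C) (h : ∀ v, ‖L v‖ ≤ C * ‖T v‖) :
    ∃ F : StrongDual 𝕜 E, ‖F‖ ≤ C ∧ ∀ v, F (T v) = L v := by
  obtain ⟨g, hg⟩ := T.rangeRestrict.exists_rightInverse_of_surjective T.range_rangeRestrict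
  have hg' : ∀ w : LinearMap.range T, T (g w) = w := fun w => by
    have := LinearMap.congr_fun hg w
    exact congrArg Subtype.val this
  let f0 : LinearMap.range T →ₗ[𝕜] 𝕜 := L.comp g
  let f : LinearMap.range T →L[𝕜] 𝕜 := f0.mkContinuous C (fun w => by
    have := h (g w)
    rw [hg'] at this
    exact this)
  obtain ⟨F, hF, hFn⟩ := exists_extension_norm_eq (LinearMap.range T) f
  refine ⟨F, ?_, ?_⟩
  · rw [hFn]; exact LinearMap.mkContinuous_norm_le _ hC _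
  · intro v
    have h1 := hF ⟨T v, LinearMap.mem_range_self T v⟩
    have h2 : F (T v) = L (g ⟨T v, LinearMap.mem_range_self T v⟩) := h1
    rw [h2, ← sub_eq_zero, ← map_sub, ← norm_eq_zero]
    have h3 := h (g ⟨T v, LinearMap.mem_range_self T v⟩ - v)
    rw [map_sub T, hg', sub_self, norm_zero, mul_zero] at h3
    exact le_antisymm h3 (norm_nonneg _)

end HB

section DP
variable {𝕜 : Type*} [RCLike 𝕜] {X : Type*} [NormedAddCommGroup X] [NormedSpace 𝕜 X]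

/-- the Daugavet equation for `f ⊗ e`. -/
theorem dp_smulRight (hDP : DaugavetProperty 𝕜 X) (f : StrongDual 𝕜 X) (e : X)
    (hf : ‖f‖ = 1) (he : ‖e‖ = 1) :
    ‖ContinuousLinearMap.id 𝕜 X + f.smulRight e‖ = 2 := by
  have hf0 : f ≠ 0 := fun h => by rw [h, norm_zero] at hf; exact zero_ne_one hf
  have he0 : e ≠ 0 := fun h => by rw [h, norm_zero] at he; exact zero_ne_one he
  obtain ⟨v, hv⟩ : ∃ v, f v ≠ 0 := by
    by_contra hcon
    push Not at hcon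
    exact hf0 (ContinuousLinearMap.ext hcon)
  have hr : LinearMap.range ((f.smulRight e : X →L[𝕜] X) : X →ₗ[𝕜] X) =
      Submodule.span 𝕜 {e} := by
    ext y
    rw [Submodule.mem_span_singleton]
    constructor
    · rintro ⟨x, rfl⟩
      exact ⟨f x, rfl⟩
    · rintro ⟨c, rfl⟩
      refine ⟨(c / f v) • v, ?_⟩
      show f ((c / f v) • v) • e = c • e
      rw [map_smul, smul_eq_mul, div_mul_cancel₀ _ hv]
  have h1 := hDP (f.smulRight e) (by
    show Module.finrank 𝕜 (LinearMap.range ((f.smulRight e : X →L[𝕜] X) : X →ₗ[𝕜] X)) = 1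
    rw [hr]; exact finrank_span_singleton he0)
  rw [h1, ContinuousLinearMap.norm_smulRight_apply, hf, he]
  norm_num

theorem re_le_norm (z : 𝕜) : RCLike.re z ≤ ‖z‖ := (le_abs_self _).trans (RCLike.abs_re_le_norm z)

theorem re_apply_le (f : StrongDual 𝕜 X) (x : X) (hf : ‖f‖ ≤ 1) (hx : ‖x‖ ≤ 1) :
    RCLike.re (f x) ≤ 1 := by
  refine (re_le_norm _).trans ((f.le_opNorm x).trans ?_)
  calc ‖f‖ * ‖x‖ ≤ 1 * 1 := mul_le_mul hf hx (norm_nonneg _) zero_le_one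
    _ = 1 := one_mul 1

/-- rotation -/
theorem exists_unimod (a : 𝕜) : ∃ ω : 𝕜, ‖ω‖ = 1 ∧ ω * a = (‖a‖ : 𝕜) := by
  by_cases h : a = 0
  · exact ⟨1, by simp, by simp [h]⟩
  · have hn : (‖a‖ : ℝ) ≠ 0 := norm_ne_zero_iff.mpr h
    refine ⟨(‖a‖ : 𝕜) / a, ?_, ?_⟩
    · rw [norm_div, RCLike.norm_ofReal, abs_of_nonneg (norm_nonneg a)]
      exact div_self hn
    · exact div_mul_cancel₀ _ h

/-- slice inside slice for one point -/
theorem dp_slice_one (hDP : DaugavetProperty 𝕜 X) (f : StrongDual 𝕜 X) (e : X)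
    (hf : ‖f‖ = 1) (he : ‖e‖ = 1) (ε : ℝ) (hε : 0 < ε) :
    ∃ (g : StrongDual 𝕜 X) (η : ℝ), ‖g‖ = 1 ∧ 0 < η ∧ ∀ y : X, ‖y‖ ≤ 1 →
      1 - η < RCLike.re (g y) → 1 - ε < RCLike.re (f y) ∧ 2 - ε < ‖e + y‖ := by
  set δ : ℝ := min (ε / 3) (1 / 4) with hδ
  have hδ0 : 0 < δ := lt_min (by linarith) (by norm_num)
  have hδ1 : δ ≤ ε / 3 := min_le_left _ _
  have hδ2 : δ ≤ 1 / 4 := min_le_right _ _
  have h2 := dp_smulRight hDP f e hf he
  obtain ⟨v, hv, hv'⟩ := ContinuousLinearMap.exists_lt_apply_of_lt_opNorm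
    (ContinuousLinearMap.id 𝕜 X + f.smulRight e) (show 2 - δ < _ by rw [h2]; linarith)
  have hv'' : 2 - δ < ‖v + f v • e‖ := by simpa using hv'
  obtain ⟨y0, hy0, hy0'⟩ := exists_dual_vector'' 𝕜 (v + f v • e)
  have h3 : RCLike.re (y0 v) + RCLike.re (f v * y0 e) = ‖v + f v • e‖ := by
    have h4 := congrArg RCLike.re hy0'
    rw [map_add, map_smul, smul_eq_mul, map_add] at h4
    simpa using h4
  have h5 : RCLike.re (y0 v) ≤ 1 := re_apply_le y0 v hy0 hv.le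
  have h6 : ‖y0 e‖ ≤ 1 := by
    have := y0.le_opNorm e
    rw [he, mul_one] at this
    exact this.trans hy0
  have h7 : ‖f v‖ ≤ 1 := by
    have := f.le_opNorm v
    rw [hf, one_mul] at this
    exact this.trans hv.le
  have h8 : RCLike.re (f v * y0 e) ≤ 1 := by
    refine (re_le_norm _).trans ?_
    rw [norm_mul]
    calc ‖f v‖ * ‖y0 e‖ ≤ 1 * 1 := mul_le_mul h7 h6 (norm_nonneg _) zero_le_one
      _ = 1 := one_mul 1
  have h9 : 1 - δ < RCLike.re (y0 v) := by linarith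
  have h10 : 1 - δ < RCLike.re (f v * y0 e) := by linarith
  have h11 : 1 - δ < ‖y0 e‖ := by
    have h12 : RCLike.re (f v * y0 e) ≤ ‖f v‖ * ‖y0 e‖ := by
      rw [← norm_mul]; exact re_le_norm _
    have h13 : ‖f v‖ * ‖y0 e‖ ≤ 1 * ‖y0 e‖ := mul_le_mul_of_nonneg_right h7 (norm_nonneg _)
    linarith
  obtain ⟨ω, hω, hω'⟩ := exists_unimod (y0 e)
  have hωc : ω * (starRingEnd 𝕜) ω = 1 := by
    rw [RCLike.mul_conj, hω]; norm_num
  set c : 𝕜 := (starRingEnd 𝕜) ω with hc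
  have hcn : ‖c‖ = 1 := by rw [hc, RCLike.norm_conj, hω]
  -- y1 = ω y0, v1 = c v
  set y1 : StrongDual 𝕜 X := ω • y0 with hy1
  set v1 : X := c • v with hv1
  have hy1n : ‖y1‖ ≤ 1 := by rw [hy1, norm_smul, hω, one_mul]; exact hy0
  have hv1n : ‖v1‖ ≤ 1 := by rw [hv1, norm_smul, hcn, one_mul]; exact hv.le
  have hA : 1 - δ < RCLike.re (y1 v1) := by
    have : y1 v1 = y0 v := by
      rw [hy1, hv1, ContinuousLinearMap.smul_apply, map_smul, smul_eq_mul, smul_eq_mul,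
        ← mul_assoc, hωc, one_mul]
    rw [this]; exact h9
  have hB : y1 e = (‖y0 e‖ : 𝕜) := by
    rw [hy1, ContinuousLinearMap.smul_apply, smul_eq_mul, hω']
  have hB' : 1 - δ < RCLike.re (y1 e) := by
    rw [hB, RCLike.ofReal_re]; exact h11
  have hC : 1 - δ < RCLike.re (f v1) := by
    have e1 : y0 e = c * (‖y0 e‖ : 𝕜) := by
      rw [← hω', ← mul_assoc, mul_comm c ω, hωc, one_mul]
    have e2 : f v * y0 e = (f v1) * (‖y0 e‖ : 𝕜) := by
      conv_lhs => rw [e1]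
      rw [hv1, map_smul, smul_eq_mul]; ring
    rw [e2, RCLike.re_mul_ofReal] at h10
    have e3 : 0 ≤ RCLike.re (f v1) := by
      by_contra hneg
      push Not at hneg
      have := mul_nonpos_of_nonpos_of_nonneg hneg.le (norm_nonneg (y0 e))
      linarith
    have e4 : RCLike.re (f v1) * ‖y0 e‖ ≤ RCLike.re (f v1) * 1 :=
      mul_le_mul_of_nonneg_left h6 e3
    linarith
  have hD : 2 - 2 * δ < ‖f + y1‖ := by
    have e1 : RCLike.re ((f + y1) v1) ≤ ‖f + y1‖ := by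
      refine (re_le_norm _).trans (((f + y1).le_opNorm v1).trans ?_)
      calc ‖f + y1‖ * ‖v1‖ ≤ ‖f + y1‖ * 1 := mul_le_mul_of_nonneg_left hv1n (norm_nonneg _)
        _ = ‖f + y1‖ := mul_one _
    rw [ContinuousLinearMap.add_apply, map_add] at e1
    linarith
  set N : ℝ := ‖f + y1‖ with hN
  have hN0 : 0 < N := by linarith
  refine ⟨((N⁻¹ : ℝ) : 𝕜) • (f + y1), 1 - (2 - 2 * δ) / N, ?_, ?_, ?_⟩
  · rw [norm_smul, RCLike.norm_ofReal, abs_of_pos (inv_pos.mpr hN0), ← hN,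
      inv_mul_cancel₀ hN0.ne']
  · rw [sub_pos, div_lt_one hN0]; exact hD
  · intro y hy hy'
    have e0 : 2 - 2 * δ < RCLike.re ((f + y1) y) := by
      rw [ContinuousLinearMap.smul_apply, smul_eq_mul, RCLike.re_ofReal_mul] at hy'
      have : (2 - 2 * δ) / N < N⁻¹ * RCLike.re ((f + y1) y) := by linarith
      rw [div_lt_iff₀ hN0] at this
      calc 2 - 2 * δ < N⁻¹ * RCLike.re ((f + y1) y) * N := this
        _ = RCLike.re ((f + y1) y) := by field_simp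
    rw [ContinuousLinearMap.add_apply, map_add] at e0
    have e1 := re_apply_le f y hf.le hy
    have e2 := re_apply_le y1 y hy1n hy
    refine ⟨by linarith, ?_⟩
    have e3 : RCLike.re (y1 (e + y)) ≤ ‖e + y‖ := by
      refine (re_le_norm _).trans ((y1.le_opNorm _).trans ?_)
      calc ‖y1‖ * ‖e + y‖ ≤ 1 * ‖e + y‖ := mul_le_mul_of_nonneg_right hy1n (norm_nonneg _)
        _ = ‖e + y‖ := one_mul _
    rw [map_add, map_add] at e3
    linarith

/-- slice inside slice for finitely many points -/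
theorem dp_slice_fin (hDP : DaugavetProperty 𝕜 X) (f : StrongDual 𝕜 X)
    (hf : ‖f‖ = 1) (s : Finset X) (hs : ∀ e ∈ s, ‖e‖ = 1) (ε : ℝ) (hε : 0 < ε) :
    ∃ (g : StrongDual 𝕜 X) (η : ℝ), ‖g‖ = 1 ∧ 0 < η ∧ ∀ y : X, ‖y‖ ≤ 1 →
      1 - η < RCLike.re (g y) → 1 - ε < RCLike.re (f y) ∧ ∀ e ∈ s, 2 - ε < ‖e + y‖ := by
  classical
  induction s using Finset.induction_on with
  | empty => exact ⟨f, ε, hf, hε, fun y _ h => ⟨h, by simp⟩⟩
  | insert e s hes ih =>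
    obtain ⟨g, η, hg, hη, H⟩ := ih (fun e he => hs e (Finset.mem_insert_of_mem he))
    obtain ⟨g', η', hg', hη', H'⟩ := dp_slice_one hDP g e hg (hs e (Finset.mem_insert_self _ _))
      (min ε η) (lt_min hε hη)
    refine ⟨g', η', hg', hη', fun y hy hy' => ?_⟩
    obtain ⟨h1, h2⟩ := H' y hy hy'
    obtain ⟨h3, h4⟩ := H y hy (lt_of_le_of_lt (by linarith [min_le_right ε η]) h1)
    refine ⟨h3, fun e' he' => ?_⟩
    rcases Finset.mem_insert.mp he' with rfl | he'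
    · exact lt_of_le_of_lt (by linarith [min_le_left ε η]) h2
    · exact h4 e' he'

theorem exists_slice_point (g : StrongDual 𝕜 X) (hg : ‖g‖ = 1) (η : ℝ) (hη : 0 < η) :
    ∃ y : X, ‖y‖ ≤ 1 ∧ 1 - η < RCLike.re (g y) := by
  obtain ⟨v, hv, hv'⟩ := ContinuousLinearMap.exists_lt_apply_of_lt_opNorm g
    (show 1 - η < ‖g‖ by rw [hg]; linarith)
  obtain ⟨ω, hω, hω'⟩ := exists_unimod (g v)
  refine ⟨ω • v, by rw [norm_smul, hω, one_mul]; exact hv.le, ?_⟩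
  rw [map_smul, smul_eq_mul, hω', RCLike.ofReal_re]
  exact hv'

/-- two-dimensional estimate -/
theorem two_scale {v x : X} {κ a b : ℝ} (hv : ‖v‖ ≤ 1) (hx : ‖x‖ ≤ 1) (h : 2 - κ ≤ ‖v + x‖)
    (hκ : 0 ≤ κ) (ha : 0 ≤ a) (hb : 0 ≤ b) :
    (1 - κ) * (a + b) ≤ ‖(a : 𝕜) • v + (b : 𝕜) • x‖ := by
  rcases le_total b a with hab | hab
  · have e1 : (a : 𝕜) • v + (b : 𝕜) • x = (a : 𝕜) • (v + x) - ((a - b : ℝ) : 𝕜) • x := by
      push_cast; module
    have e2 := norm_sub_norm_le ((a : 𝕜) • (v + x)) (((a - b : ℝ) : 𝕜) • x)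
    rw [← e1, norm_smul, norm_smul, RCLike.norm_ofReal, RCLike.norm_ofReal, abs_of_nonneg ha,
      abs_of_nonneg (sub_nonneg.mpr hab)] at e2
    have e3 : a * (2 - κ) ≤ a * ‖v + x‖ := mul_le_mul_of_nonneg_left h ha
    have e4 : (a - b) * ‖x‖ ≤ (a - b) * 1 := mul_le_mul_of_nonneg_left hx (sub_nonneg.mpr hab)
    nlinarith
  · have e1 : (a : 𝕜) • v + (b : 𝕜) • x = (b : 𝕜) • (v + x) - ((b - a : ℝ) : 𝕜) • v := by
      push_cast; module
    have e2 := norm_sub_norm_le ((b : 𝕜) • (v + x)) (((b - a : ℝ) : 𝕜) • v)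
    rw [← e1, norm_smul, norm_smul, RCLike.norm_ofReal, RCLike.norm_ofReal, abs_of_nonneg hb,
      abs_of_nonneg (sub_nonneg.mpr hab)] at e2
    have e3 : b * (2 - κ) ≤ b * ‖v + x‖ := mul_le_mul_of_nonneg_left h hb
    have e4 : (b - a) * ‖v‖ ≤ (b - a) * 1 := mul_le_mul_of_nonneg_left hv (sub_nonneg.mpr hab)
    nlinarith

/-- one vector in a slice almost `L`-orthogonal to a finite-dimensional subspace -/
theorem dp_findim (hDP : DaugavetProperty 𝕜 X) (f : StrongDual 𝕜 X)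
    (hf : ‖f‖ = 1) (V : Submodule 𝕜 X) [FiniteDimensional 𝕜 V] (ε : ℝ) (hε : 0 < ε) (δ : ℝ)
    (hδ : 0 < δ) :
    ∃ x : X, ‖x‖ ≤ 1 ∧ 1 - ε < RCLike.re (f x) ∧ ∀ e ∈ V, ∀ c : 𝕜,
      (1 - δ) * (‖e‖ + ‖c‖) ≤ ‖e + c • x‖ := by
  classical
  have : ProperSpace V := FiniteDimensional.proper_rclike 𝕜 V
  have hcomp : IsCompact (Metric.sphere (0 : V) 1) := isCompact_sphere 0 1
  obtain ⟨t, ht1, ht2⟩ := hcomp.elim_finite_subcover_image
    (b := Metric.sphere (0 : V) 1) (c := fun v : V => Metric.ball v (δ / 2))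
    (fun v _ => Metric.isOpen_ball)
    (fun v hv => Set.mem_iUnion₂.mpr ⟨v, hv, Metric.mem_ball_self (by linarith)⟩)
  obtain ⟨ht2, ht3⟩ := ht2
  set s : Finset X := ht2.toFinset.image (fun v : V => (v : X)) with hs
  have hs1 : ∀ e ∈ s, ‖e‖ = 1 := by
    intro e he
    rw [hs, Finset.mem_image] at he
    obtain ⟨v, hv, rfl⟩ := he
    have := ht1 (ht2.mem_toFinset.mp hv)
    simpa using this
  obtain ⟨g, η, hg, hη, H⟩ := dp_slice_fin hDP f hf s hs1 (min ε (δ / 2))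
    (lt_min hε (by linarith))
  obtain ⟨x, hx, hx'⟩ := exists_slice_point g hg η hη
  obtain ⟨h1, h2⟩ := H x hx hx'
  refine ⟨x, hx, lt_of_le_of_lt (by linarith [min_le_left ε (δ / 2)]) h1, ?_⟩
  intro e he c
  obtain ⟨ω, hω, hω'⟩ := exists_unimod c
  have hfx : 1 - δ ≤ ‖x‖ := by
    have e1 : RCLike.re (f x) ≤ ‖x‖ := by
      refine (re_le_norm _).trans ((f.le_opNorm x).trans ?_)
      rw [hf, one_mul]
    linarith [min_le_right ε (δ / 2)]
  by_cases he0 : e = 0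
  · rw [he0, norm_zero, zero_add, zero_add, norm_smul, mul_comm]
    exact mul_le_mul_of_nonneg_left hfx (norm_nonneg c)
  · have hen : 0 < ‖e‖ := norm_pos_iff.mpr he0
    set v : X := ((‖e‖⁻¹ : ℝ) : 𝕜) • (ω • e) with hv
    have hvV : v ∈ V := V.smul_mem _ (V.smul_mem _ he)
    have hvn : ‖v‖ = 1 := by
      rw [hv, norm_smul, norm_smul, RCLike.norm_ofReal, hω, abs_of_pos (inv_pos.mpr hen), one_mul,
        inv_mul_cancel₀ hen.ne']
    have hvs : (⟨v, hvV⟩ : V) ∈ Metric.sphere (0 : V) 1 := by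
      rw [mem_sphere_zero_iff_norm]; exact hvn
    obtain ⟨w, hw, hw'⟩ := Set.mem_iUnion₂.mp (ht3 hvs)
    have hws : (w : X) ∈ s := by
      rw [hs, Finset.mem_image]; exact ⟨w, ht2.mem_toFinset.mpr hw, rfl⟩
    have h3 := h2 _ hws
    have h4 : ‖v - (w : X)‖ < δ / 2 := by
      rw [Metric.mem_ball, dist_eq_norm] at hw'
      exact hw'
    have h5 : 2 - δ ≤ ‖v + x‖ := by
      have e1 : (w : X) + x = (v + x) - (v - w) := by abel
      have e2 := norm_sub_le (v + x) (v - w)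
      rw [← e1] at e2
      linarith [min_le_right ε (δ / 2)]
    have h6 := two_scale (𝕜 := 𝕜) hvn.le hx h5 hδ.le hen.le (norm_nonneg c)
    have h7 : ((‖e‖ : ℝ) : 𝕜) • v + ((‖c‖ : ℝ) : 𝕜) • x = ω • (e + c • x) := by
      rw [hv, smul_smul, ← RCLike.ofReal_mul, mul_inv_cancel₀ hen.ne', RCLike.ofReal_one, one_smul,
        ← hω', smul_add, mul_smul]
    rw [h7, norm_smul, hω, one_mul] at h6
    exact h6

end DP

end Pool.Agent.H130R4.DA
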