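import Mathlib
import Pool.Agent.H130R4.DA1

set_option autoImplicit false
set_option synthInstance.maxHeartbeats 400000

open Filter Topology

namespace Pool.Agent.H130R4.DA

variable {𝕜 : Type*} [RCLike 𝕜] {X : Type*} [NormedAddCommGroup X] [NormedSpace 𝕜 X]

theorem my_norm_smul {E : Type*} [NormedAddCommGroup E] [NormedSpace 𝕜 E] (c : 𝕜) (z : E) :
    ‖c • z‖ = ‖c‖ * ‖z‖ := norm_smul c z

theorem dd_norm_smul (c : 𝕜) (z : StrongDual 𝕜 (StrongDual 𝕜 X)) :
    ‖c • z‖ = ‖c‖ * ‖z‖ := my_norm_smul c z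

/-- the constants `1 + 1/(n+1)` -/
noncomputable def cc (n : ℕ) : ℝ := 1 + 1 / ((n : ℝ) + 1)

theorem cc_one_le (n : ℕ) : 1 ≤ cc n := by
  unfold cc
  have : 0 < 1 / ((n : ℝ) + 1) := by positivity
  linarith

theorem cc_pos (n : ℕ) : 0 < cc n := lt_of_lt_of_le one_pos (cc_one_le n)

theorem cc_succ_lt (n : ℕ) : cc (n + 1) < cc n := by
  unfold cc
  have : 1 / (((n + 1 : ℕ) : ℝ) + 1) < 1 / ((n : ℝ) + 1) := by
    apply one_div_lt_one_div_of_lt (by positivity)
    push_cast; linarith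
  linarith

theorem cc_anti {m n : ℕ} (h : m ≤ n) : cc n ≤ cc m :=
  antitone_nat_of_succ_le (f := cc) (fun k => (cc_succ_lt k).le) h

theorem cc_tendsto : Tendsto cc atTop (𝓝 1) := by
  unfold cc
  have := (tendsto_one_div_add_atTop_nhds_zero_nat (𝕜 := ℝ)).const_add (1 : ℝ)
  simpa using this

theorem exists_seq (hDP : DaugavetProperty 𝕜 X) (f : StrongDual 𝕜 X) (hf : ‖f‖ = 1)
    (ε : ℝ) (hε : 0 < ε) :
    ∃ x : ℕ → X, (∀ n, ‖x n‖ ≤ 1 ∧ 1 - ε < RCLike.re (f (x n))) ∧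
      ∀ n N, n ≤ N → ∀ c : ℕ → 𝕜,
        ∑ k ∈ Finset.Ico n N, ‖c k‖ ≤ cc n * ‖∑ k ∈ Finset.range N, c k • x k‖ := by
  classical
  have key : ∀ (n : ℕ) (V : {V : Submodule 𝕜 X // FiniteDimensional 𝕜 V}), ∃ x : X, ‖x‖ ≤ 1 ∧
      1 - ε < RCLike.re (f x) ∧ ∀ e ∈ V.1, ∀ c : 𝕜,
      (cc (n + 1) / cc n) * (‖e‖ + ‖c‖) ≤ ‖e + c • x‖ := by
    intro n V
    have := V.2
    have hδ : 0 < 1 - cc (n + 1) / cc n := by
      rw [sub_pos, div_lt_one (cc_pos n)]; exact cc_succ_lt n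
    obtain ⟨x, h1, h2, h3⟩ := dp_findim hDP f hf V.1 ε hε _ hδ
    refine ⟨x, h1, h2, fun e he c => ?_⟩
    have := h3 e he c
    rwa [sub_sub_cancel] at this
  choose x hx1 hx2 hx3 using key
  let Vs : ℕ → {V : Submodule 𝕜 X // FiniteDimensional 𝕜 V} := fun n =>
    Nat.rec ⟨⊥, inferInstance⟩ (fun n V => ⟨V.1 ⊔ Submodule.span 𝕜 {x n V}, by
      have := V.2
      infer_instance⟩) n
  set xs : ℕ → X := fun n => x n (Vs n) with hxs
  have hVs : ∀ n, (Vs (n + 1)).1 = (Vs n).1 ⊔ Submodule.span 𝕜 {xs n} := fun n => rfl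
  have hmem : ∀ (c : ℕ → 𝕜) (n : ℕ), ∑ k ∈ Finset.range n, c k • xs k ∈ (Vs n).1 := by
    intro c n
    induction n with
    | zero => simp
    | succ n ih =>
      rw [Finset.sum_range_succ, hVs]
      exact Submodule.add_mem_sup ih
        (Submodule.smul_mem _ _ (Submodule.mem_span_singleton_self _))
  refine ⟨xs, fun n => ⟨hx1 n _, hx2 n _⟩, ?_⟩
  have main : ∀ n N, n ≤ N → ∀ c : ℕ → 𝕜,
      cc N / cc n * ∑ k ∈ Finset.Ico n N, ‖c k‖ ≤ ‖∑ k ∈ Finset.range N, c k • xs k‖ := by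
    intro n N hnN c
    induction N, hnN using Nat.le_induction with
    | base => simp
    | succ N hN ih =>
      rw [Finset.sum_range_succ, Finset.sum_Ico_succ_top hN]
      have h1 := hx3 N (Vs N) _ (hmem c N) (c N)
      refine le_trans ?_ h1
      set S := ∑ k ∈ Finset.Ico n N, ‖c k‖
      set A := ‖∑ k ∈ Finset.range N, c k • xs k‖
      have h2 : cc (N + 1) / cc N * (cc N / cc n * S + ‖c N‖) ≤
          cc (N + 1) / cc N * (A + ‖c N‖) :=
        mul_le_mul_of_nonneg_left (by linarith) (div_pos (cc_pos _) (cc_pos _)).le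
      refine le_trans ?_ h2
      have h3 : cc (N + 1) / cc N * (cc N / cc n * S) = cc (N + 1) / cc n * S := by
        have := (cc_pos N).ne'
        field_simp
      have h4 : cc (N + 1) / cc n * ‖c N‖ ≤ cc (N + 1) / cc N * ‖c N‖ := by
        apply mul_le_mul_of_nonneg_right _ (norm_nonneg _)
        exact div_le_div_of_nonneg_left (cc_pos _).le (cc_pos _) (cc_anti hN)
      rw [mul_add, mul_add, h3]
      linarith
  intro n N hnN c
  have h1 := main n N hnN c
  set S := ∑ k ∈ Finset.Ico n N, ‖c k‖ with hS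
  have hS0 : 0 ≤ S := Finset.sum_nonneg fun _ _ => norm_nonneg _
  rw [div_mul_eq_mul_div, div_le_iff₀ (cc_pos n)] at h1
  have h2 : 1 * S ≤ cc N * S := mul_le_mul_of_nonneg_right (cc_one_le N) hS0
  linarith

theorem exists_functional (x : ℕ → X)
    (h : ∀ n N, n ≤ N → ∀ c : ℕ → 𝕜,
        ∑ k ∈ Finset.Ico n N, ‖c k‖ ≤ cc n * ‖∑ k ∈ Finset.range N, c k • x k‖) (n : ℕ) :
    ∃ F : StrongDual 𝕜 X, ‖F‖ ≤ cc n ∧ ∀ k, F (x k) = if k < n then 0 else 1 := by
  classical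
  obtain ⟨F, hF, hF'⟩ := helly_ext (Finsupp.linearCombination 𝕜 x)
    (Finsupp.linearCombination 𝕜 (fun k => if k < n then (0 : 𝕜) else 1)) (cc n) (cc_pos n).le
    (by
      intro v
      set N := max n (v.support.sup id + 1) with hN
      have hsub : v.support ⊆ Finset.range N := by
        intro k hk
        rw [Finset.mem_range, hN]
        have h1 : k ≤ v.support.sup id := Finset.le_sup (f := id) hk
        exact lt_of_lt_of_le (Nat.lt_succ_of_le h1) (le_max_right _ _)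
      rw [Finsupp.linearCombination_apply, Finsupp.linearCombination_apply,
        Finsupp.sum_of_support_subset v hsub _ (by simp),
        Finsupp.sum_of_support_subset v hsub _ (by simp)]
      refine le_trans ?_ (h n N (le_max_left _ _) v)
      have h2 : ∑ k ∈ Finset.range N, v k • (if k < n then (0 : 𝕜) else 1) =
          ∑ k ∈ Finset.Ico n N, v k := by
        rw [Finset.range_eq_Ico, ← Finset.sum_Ico_consecutive _ (Nat.zero_le n)
          (le_max_left n (v.support.sup id + 1))]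
        have e1 : ∑ k ∈ Finset.Ico 0 n, v k • (if k < n then (0 : 𝕜) else 1) = 0 := by
          apply Finset.sum_eq_zero
          intro k hk
          rw [Finset.mem_Ico] at hk
          simp [hk.2]
        rw [e1, zero_add]
        apply Finset.sum_congr rfl
        intro k hk
        rw [Finset.mem_Ico] at hk
        simp [not_lt.mpr hk.1]
      rw [h2]
      exact norm_sum_le _ _)
  refine ⟨F, hF, fun k => ?_⟩
  have := hF' (Finsupp.single k 1)
  simpa using this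

theorem exists_ultralimit (x : ℕ → X) (hx : ∀ n, ‖x n‖ ≤ 1) :
    ∃ u : StrongDual 𝕜 (StrongDual 𝕜 X), ‖u‖ ≤ 1 ∧ ∀ f : StrongDual 𝕜 X,
      Tendsto (fun n => f (x n)) (hyperfilter ℕ : Filter ℕ) (𝓝 (u f)) := by
  have h1 : ∀ f : StrongDual 𝕜 X, ∃ a : 𝕜, ‖a‖ ≤ ‖f‖ ∧
      Tendsto (fun n => f (x n)) (hyperfilter ℕ : Filter ℕ) (𝓝 a) := by
    intro f
    have hc : IsCompact (Metric.closedBall (0 : 𝕜) ‖f‖) := isCompact_closedBall 0 ‖f‖
    have h2 : ∀ n, f (x n) ∈ Metric.closedBall (0 : 𝕜) ‖f‖ := by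
      intro n
      rw [mem_closedBall_zero_iff]
      exact (f.le_opNorm _).trans (mul_le_of_le_one_right (norm_nonneg _) (hx n))
    obtain ⟨a, ha, ha'⟩ := hc.ultrafilter_le_nhds ((hyperfilter ℕ).map fun n => f (x n))
      (by
        rw [Ultrafilter.coe_map, le_principal_iff]
        exact Filter.mem_map.mpr (Filter.univ_mem' h2))
    exact ⟨a, mem_closedBall_zero_iff.mp ha, ha'⟩
  choose u hu1 hu2 using h1
  let u0 : StrongDual 𝕜 X →ₗ[𝕜] 𝕜 :=
    { toFun := u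
      map_add' := fun f g =>
        tendsto_nhds_unique (hu2 (f + g)) ((hu2 f).add (hu2 g))
      map_smul' := fun c f =>
        tendsto_nhds_unique (hu2 (c • f)) ((hu2 f).const_smul c) }
  refine ⟨u0.mkContinuous 1 (fun f => by rw [one_mul]; exact hu1 f),
    LinearMap.mkContinuous_norm_le _ zero_le_one _, hu2⟩

set_option maxHeartbeats 4000000 in
/-- The key lemma: in an `L`-embedded space with the Daugavet property, the unit ball of the
complement `Z` norms the dual. -/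
theorem key_lemma (hDP : DaugavetProperty 𝕜 X)
    (Z : Submodule 𝕜 (StrongDual 𝕜 (StrongDual 𝕜 X)))
    (hZ1 : ∀ ξ : StrongDual 𝕜 (StrongDual 𝕜 X), ∃ x : X, ∃ z ∈ Z,
      ξ = NormedSpace.inclusionInDoubleDual 𝕜 X x + z)
    (hZ2 : ∀ x : X, ∀ z ∈ Z, ‖NormedSpace.inclusionInDoubleDual 𝕜 X x + z‖ = ‖x‖ + ‖z‖)
    (f : StrongDual 𝕜 X) (hf : ‖f‖ = 1) (η : ℝ) (hη : 0 < η) :
    ∃ z ∈ Z, ‖z‖ = 1 ∧ 1 - η < RCLike.re (z f) := by
  obtain ⟨x, hx1, hx2⟩ := exists_seq hDP f hf (η / 3) (by linarith)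
  obtain ⟨u, hu1, hu2⟩ := exists_ultralimit (𝕜 := 𝕜) x (fun n => (hx1 n).1)
  choose F hF1 hF2 using exists_functional (𝕜 := 𝕜) x hx2
  obtain ⟨x0, z, hz, huz⟩ := hZ1 u
  have hnorm : ‖x0‖ + ‖z‖ ≤ 1 := by rw [← hZ2 x0 z hz, ← huz]; exact hu1
  have huF : ∀ n, u (F n) = 1 := by
    intro n
    refine tendsto_nhds_unique (hu2 (F n)) ?_
    refine tendsto_const_nhds.congr' ?_
    have h1 : ∀ᶠ k in (atTop : Filter ℕ), (1 : 𝕜) = F n (x k) := by
      filter_upwards [eventually_ge_atTop n] with k hk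
      rw [hF2, if_neg (not_lt.mpr hk)]
    exact Nat.hyperfilter_le_atTop h1
  have huf : 1 - η / 3 ≤ RCLike.re (u f) := by
    have h1 : Tendsto (fun n => RCLike.re (f (x n))) (hyperfilter ℕ : Filter ℕ)
        (𝓝 (RCLike.re (u f))) := (RCLike.continuous_re.tendsto _).comp (hu2 f)
    exact ge_of_tendsto' h1 (fun n => (hx1 n).2.le)
  -- functionals vanish eventually on the span
  have hspan : ∀ e ∈ Submodule.span 𝕜 (Set.range x), ∃ n0, ∀ n, n0 ≤ n → F n e = 0 := by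
    intro e he
    induction he using Submodule.span_induction with
    | mem y hy =>
      obtain ⟨k, rfl⟩ := hy
      exact ⟨k + 1, fun n hn => by rw [hF2, if_pos (by omega)]⟩
    | zero => exact ⟨0, fun n _ => map_zero _⟩
    | add a b _ _ ha hb =>
      obtain ⟨m, hm⟩ := ha
      obtain ⟨m', hm'⟩ := hb
      exact ⟨max m m', fun n hn => by
        rw [map_add, hm n ((le_max_left _ _).trans hn), hm' n ((le_max_right _ _).trans hn),
          add_zero]⟩
    | smul c a _ ha =>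
      obtain ⟨m, hm⟩ := ha
      exact ⟨m, fun n hn => by rw [map_smul, hm n hn, smul_zero]⟩
  have hdist : ∀ e ∈ Submodule.span 𝕜 (Set.range x), 1 - ‖z‖ ≤ ‖x0 + e‖ := by
    intro e he
    obtain ⟨n0, hn0⟩ := hspan e he
    have h1 : ∀ n, n0 ≤ n → 1 ≤ (‖x0 + e‖ + ‖z‖) * cc n := by
      intro n hn
      have h2 : (NormedSpace.inclusionInDoubleDual 𝕜 X (x0 + e) + z) (F n) = 1 := by
        have h3 : NormedSpace.inclusionInDoubleDual 𝕜 X (x0 + e) + z =
            u + NormedSpace.inclusionInDoubleDual 𝕜 X e := by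
          rw [huz, map_add]; abel
        rw [h3]
        show u (F n) + F n e = 1
        rw [huF, hn0 n hn, add_zero]
      have h3 := (NormedSpace.inclusionInDoubleDual 𝕜 X (x0 + e) + z).le_opNorm (F n)
      rw [h2, norm_one, hZ2 _ z hz] at h3
      exact h3.trans (mul_le_mul_of_nonneg_left (hF1 n) (by positivity))
    have h2 : Tendsto (fun n => (‖x0 + e‖ + ‖z‖) * cc n) atTop (𝓝 ((‖x0 + e‖ + ‖z‖) * 1)) :=
      cc_tendsto.const_mul _
    have h3 := ge_of_tendsto h2 (by filter_upwards [eventually_ge_atTop n0] with n hn using h1 n hn)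
    linarith
  -- separating functional
  have hd0 : 0 ≤ 1 - ‖z‖ := by linarith [norm_nonneg x0]
  have hzhalf : 1 - ‖z‖ ≤ ‖z‖ := by
    set E := Submodule.span 𝕜 (Set.range x) with hE
    obtain ⟨φ, hφ1, hφ2⟩ := helly_ext
      ((LinearMap.toSpanSingleton 𝕜 X x0).coprod E.subtype)
      (((1 - ‖z‖ : ℝ) : 𝕜) • (LinearMap.fst 𝕜 𝕜 E)) 1 zero_le_one (by
        rintro ⟨c, e⟩
        have e1 : ((((1 - ‖z‖ : ℝ) : 𝕜) • (LinearMap.fst 𝕜 𝕜 E)) (c, e)) =
          ((1 - ‖z‖ : ℝ) : 𝕜) * c := rfl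
        have e2 : ((LinearMap.toSpanSingleton 𝕜 X x0).coprod E.subtype) (c, e) =
          c • x0 + (e : X) := by simp
        rw [e1, e2, norm_mul, RCLike.norm_ofReal, abs_of_nonneg hd0, one_mul]
        by_cases hc : c = 0
        · rw [hc, norm_zero, mul_zero]; exact norm_nonneg _
        · have e3 : c • x0 + (e : X) = c • (x0 + c⁻¹ • (e : X)) := by
            rw [smul_add, smul_smul, mul_inv_cancel₀ hc, one_smul]
          rw [e3, norm_smul, mul_comm]
          exact mul_le_mul_of_nonneg_left (hdist _ (E.smul_mem _ e.2)) (norm_nonneg c))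
    have hφx0 : φ x0 = ((1 - ‖z‖ : ℝ) : 𝕜) := by
      have := hφ2 (1, 0)
      simpa using this
    have hφx : ∀ k, φ (x k) = 0 := by
      intro k
      have := hφ2 (0, ⟨x k, Submodule.subset_span ⟨k, rfl⟩⟩)
      simpa using this
    have huφ : u φ = 0 := by
      refine tendsto_nhds_unique (hu2 φ) ?_
      simp only [hφx]
      exact tendsto_const_nhds
    have h1 : φ x0 + z φ = 0 := by
      rw [← huφ, huz]
      rfl
    have h2 : z φ = -φ x0 := by
      rw [eq_neg_iff_add_eq_zero, add_comm]; exact h1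
    have h3 := z.le_opNorm φ
    rw [h2, norm_neg, hφx0, RCLike.norm_ofReal, abs_of_nonneg hd0] at h3
    exact h3.trans (mul_le_of_le_one_right (norm_nonneg _) hφ1)
  have hz0 : 0 < ‖z‖ := by linarith
  have hzf : ‖z‖ - η / 3 ≤ RCLike.re (z f) := by
    have h1 : u f = f x0 + z f := by rw [huz]; rfl
    rw [h1, map_add] at huf
    have h2 : RCLike.re (f x0) ≤ ‖x0‖ := by
      refine (re_le_norm _).trans ((f.le_opNorm x0).trans ?_)
      rw [hf, one_mul]
    linarith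
  refine ⟨((‖z‖⁻¹ : ℝ) : 𝕜) • z, Z.smul_mem _ hz, ?_, ?_⟩
  · have e0 : ‖((‖z‖⁻¹ : ℝ) : 𝕜) • z‖ = ‖((‖z‖⁻¹ : ℝ) : 𝕜)‖ * ‖z‖ :=
      dd_norm_smul _ z
    rw [e0, RCLike.norm_ofReal, abs_of_pos (inv_pos.mpr hz0), inv_mul_cancel₀ hz0.ne']
  · have e1 : (((‖z‖⁻¹ : ℝ) : 𝕜) • z) f = ((‖z‖⁻¹ : ℝ) : 𝕜) * z f := rfl
    rw [e1, RCLike.re_ofReal_mul, inv_mul_eq_div, lt_div_iff₀ hz0]
    nlinarith

end Pool.Agent.H130R4.DA
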