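import Mathlib
import Pool.Agent.H130R4.DA2

set_option autoImplicit false
set_option synthInstance.maxHeartbeats 400000

open Filter Topology

namespace Pool.Agent.H130R4.DA

variable {𝕜 : Type*} [RCLike 𝕜]

theorem exists_almost_norming {E : Type*} [NormedAddCommGroup E] [NormedSpace 𝕜 E]
    (g : StrongDual 𝕜 E) (δ : ℝ) (hδ : 0 < δ) :
    ∃ y : E, ‖y‖ ≤ 1 ∧ ‖g‖ - δ ≤ RCLike.re (g y) := by
  by_cases h : 0 ≤ ‖g‖ - δ
  · obtain ⟨v, hv, hv'⟩ := ContinuousLinearMap.exists_lt_apply_of_lt_opNorm g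
      (show ‖g‖ - δ < ‖g‖ by linarith)
    obtain ⟨ω, hω, hω'⟩ := exists_unimod (g v)
    refine ⟨ω • v, by rw [norm_smul, hω, one_mul]; exact hv.le, ?_⟩
    rw [map_smul, smul_eq_mul, hω', RCLike.ofReal_re]
    exact hv'.le
  · exact ⟨0, by simp, by simp; linarith⟩

theorem sum_norm_le {κ : Type*} [Fintype κ] {E : Type*} [NormedAddCommGroup E]
    [NormedSpace 𝕜 E] (Θ : StrongDual 𝕜 (κ → E)) (ξ : κ → StrongDual 𝕜 E)
    (h : ∀ φ : κ → E, Θ φ = ∑ l, ξ l (φ l)) : ∑ l, ‖ξ l‖ ≤ ‖Θ‖ := by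
  refine le_of_forall_pos_le_add fun δ hδ => ?_
  set δ' : ℝ := δ / (Fintype.card κ + 1) with hδ'
  have hδ'0 : 0 < δ' := by positivity
  choose φ hφ1 hφ2 using fun l => exists_almost_norming (ξ l) δ' hδ'0
  have h1 : ∑ l, (‖ξ l‖ - δ') ≤ ‖Θ‖ := by
    calc ∑ l, (‖ξ l‖ - δ') ≤ ∑ l, RCLike.re (ξ l (φ l)) := Finset.sum_le_sum fun l _ => hφ2 l
      _ = RCLike.re (Θ φ) := by rw [h, map_sum]
      _ ≤ ‖Θ φ‖ := re_le_norm _
      _ ≤ ‖Θ‖ * ‖φ‖ := Θ.le_opNorm φ
      _ ≤ ‖Θ‖ * 1 := mul_le_mul_of_nonneg_left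
          ((pi_norm_le_iff_of_nonneg zero_le_one).mpr hφ1) (norm_nonneg _)
      _ = ‖Θ‖ := mul_one _
  rw [Finset.sum_sub_distrib, Finset.sum_const, Finset.card_univ, nsmul_eq_mul] at h1
  have h2 : (Fintype.card κ : ℝ) * δ' ≤ δ := by
    rw [hδ', mul_div_assoc', div_le_iff₀ (by positivity)]
    nlinarith
  linarith

theorem exists_finite_norming (F : Type*) [NormedAddCommGroup F] [NormedSpace 𝕜 F]
    [FiniteDimensional 𝕜 F] (ε : ℝ) (hε : 0 < ε) :
    ∃ H : Finset (StrongDual 𝕜 F), (∀ h ∈ H, ‖h‖ ≤ 1) ∧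
      ∀ v : F, v ≠ 0 → ∃ h ∈ H, ‖v‖ ≤ (1 + ε) * ‖h v‖ := by
  classical
  have : ProperSpace F := FiniteDimensional.proper_rclike 𝕜 F
  set δ : ℝ := ε / (1 + ε) with hδ
  have hδ0 : 0 < δ := by positivity
  have hcomp : IsCompact (Metric.sphere (0 : F) 1) := isCompact_sphere 0 1
  obtain ⟨t, ht1, ht2, ht3⟩ := hcomp.elim_finite_subcover_image
    (b := Metric.sphere (0 : F) 1) (c := fun v : F => Metric.ball v δ)
    (fun v _ => Metric.isOpen_ball)
    (fun v hv => Set.mem_iUnion₂.mpr ⟨v, hv, Metric.mem_ball_self hδ0⟩)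
  choose h hh1 hh2 using fun v : F => exists_dual_vector'' 𝕜 v
  refine ⟨ht2.toFinset.image h, ?_, ?_⟩
  · intro g hg
    rw [Finset.mem_image] at hg
    obtain ⟨v, _, rfl⟩ := hg
    exact hh1 v
  · intro v hv
    have hvn : 0 < ‖v‖ := norm_pos_iff.mpr hv
    set w : F := ((‖v‖⁻¹ : ℝ) : 𝕜) • v with hw
    have hwn : w ∈ Metric.sphere (0 : F) 1 := by
      rw [mem_sphere_zero_iff_norm, hw, norm_smul, RCLike.norm_ofReal,
        abs_of_pos (inv_pos.mpr hvn), inv_mul_cancel₀ hvn.ne']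
    obtain ⟨p, hp, hp'⟩ := Set.mem_iUnion₂.mp (ht3 hwn)
    refine ⟨h p, Finset.mem_image.mpr ⟨p, ht2.mem_toFinset.mpr hp, rfl⟩, ?_⟩
    have hpn : ‖p‖ = 1 := mem_sphere_zero_iff_norm.mp (ht1 hp)
    have h1 : ‖h p (w - p)‖ ≤ δ := by
      refine ((h p).le_opNorm _).trans ?_
      rw [Metric.mem_ball, dist_eq_norm] at hp'
      calc ‖h p‖ * ‖w - p‖ ≤ 1 * δ := mul_le_mul (hh1 p) hp'.le (norm_nonneg _) zero_le_one
        _ = δ := one_mul δ
    have h2 : 1 - δ ≤ ‖h p w‖ := by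
      have e1 : h p p = h p w - h p (w - p) := by rw [map_sub]; ring
      have e2 := norm_sub_le (h p w) (h p (w - p))
      rw [← e1, hh2, hpn] at e2
      have e3 : ‖((1 : ℝ) : 𝕜)‖ = 1 := by simp
      rw [e3] at e2
      linarith
    have h3 : ‖h p w‖ = ‖v‖⁻¹ * ‖h p v‖ := by
      rw [hw, map_smul, norm_smul, RCLike.norm_ofReal, abs_of_pos (inv_pos.mpr hvn)]
    rw [h3, le_inv_mul_iff₀ hvn] at h2
    have h4 : (1 - δ) * (1 + ε) = 1 := by rw [hδ]; field_simp; ring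
    calc ‖v‖ = (1 + ε) * (‖v‖ * (1 - δ)) := by
          rw [mul_comm (‖v‖), ← mul_assoc, mul_comm (1 + ε), h4, one_mul]
      _ ≤ (1 + ε) * ‖h p v‖ := mul_le_mul_of_nonneg_left h2 (by linarith)

set_option maxHeartbeats 4000000 in
theorem local_reflexivity {X : Type*} [NormedAddCommGroup X] [NormedSpace 𝕜 X]
    {F : Type*} [NormedAddCommGroup F] [NormedSpace 𝕜 F] [FiniteDimensional 𝕜 F]
    (A : StrongDual 𝕜 (StrongDual 𝕜 X) →L[𝕜] F) (hA : ∀ ξ, ‖A ξ‖ ≤ ‖ξ‖)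
    {ι : Type*} [Fintype ι] (g : ι → StrongDual 𝕜 F)
    (ξ : ι → StrongDual 𝕜 (StrongDual 𝕜 X)) (ε : ℝ) (hε : 0 < ε) :
    ∃ R : X →L[𝕜] F, ‖R‖ ≤ 1 + ε ∧ ∀ j, ‖ξ j ((g j).comp R) - g j (A (ξ j))‖ < ε := by
  classical
  let D : (X →L[𝕜] F) →ₗ[𝕜] (ι → 𝕜) :=
    { toFun := fun R j => ξ j ((g j).comp R)
      map_add' := fun R S => by
        funext j
        show ξ j ((g j).comp (R + S)) = ξ j ((g j).comp R) + ξ j ((g j).comp S)
        rw [← map_add]
        congr 1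
        ext x
        simp
      map_smul' := fun c R => by
        funext j
        show ξ j ((g j).comp (c • R)) = c • ξ j ((g j).comp R)
        rw [← map_smul]
        congr 1
        ext x
        simp }
  have hD : ∀ R j, D R j = ξ j ((g j).comp R) := fun R j => rfl
  set C : Set (ι → 𝕜) := closure (D '' Metric.closedBall 0 (1 + ε)) with hC
  have hCconv : Convex ℝ C := by
    apply Convex.closure
    rintro _ ⟨R, hR, rfl⟩ _ ⟨S, hS, rfl⟩ p q hp hq hpq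
    rw [mem_closedBall_zero_iff] at hR hS
    refine ⟨(p : 𝕜) • R + (q : 𝕜) • S, ?_, ?_⟩
    · rw [mem_closedBall_zero_iff]
      refine (norm_add_le _ _).trans ?_
      rw [norm_smul, norm_smul, RCLike.norm_ofReal, RCLike.norm_ofReal, abs_of_nonneg hp,
        abs_of_nonneg hq]
      have h1 := mul_le_mul_of_nonneg_left hR hp
      have h2 := mul_le_mul_of_nonneg_left hS hq
      calc p * ‖R‖ + q * ‖S‖ ≤ p * (1 + ε) + q * (1 + ε) := add_le_add h1 h2
        _ = (p + q) * (1 + ε) := by ring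
        _ = 1 + ε := by rw [hpq, one_mul]
    · rw [LinearMap.map_add, LinearMap.map_smul, LinearMap.map_smul,
        RCLike.real_smul_eq_coe_smul (K := 𝕜) p, RCLike.real_smul_eq_coe_smul (K := 𝕜) q]
  set t : ι → 𝕜 := fun j => g j (A (ξ j)) with ht
  suffices htC : t ∈ C by
    rw [hC, Metric.mem_closure_iff] at htC
    obtain ⟨b, ⟨R, hR, rfl⟩, hb⟩ := htC ε hε
    refine ⟨R, mem_closedBall_zero_iff.mp hR, fun j => ?_⟩
    have h1 := dist_le_pi_dist t (D R) j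
    rw [dist_comm, dist_eq_norm] at h1
    exact lt_of_le_of_lt h1 hb
  by_contra hcon
  obtain ⟨f, s, hfs, hfs'⟩ := RCLike.geometric_hahn_banach_closed_point (𝕜 := 𝕜) hCconv
    isClosed_closure hcon
  have hs0 : 0 < s := by
    have h1 := hfs 0 (subset_closure ⟨0, by simp; linarith, map_zero D⟩)
    simpa using h1
  -- the functional θ
  let θ : (X →L[𝕜] F) →ₗ[𝕜] 𝕜 := (f : (ι → 𝕜) →ₗ[𝕜] 𝕜).comp D
  have hθ1 : ∀ R : X →L[𝕜] F, ‖R‖ ≤ 1 + ε → RCLike.re (θ R) < s := fun R hR =>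
    hfs _ (subset_closure ⟨R, mem_closedBall_zero_iff.mpr hR, rfl⟩)
  have hθ2 : ∀ R : X →L[𝕜] F, (1 + ε) * ‖θ R‖ ≤ s * ‖R‖ := by
    intro R
    by_cases hR : R = 0
    · rw [hR, map_zero]; simp
    · have hRn : 0 < ‖R‖ := norm_pos_iff.mpr hR
      obtain ⟨ω, hω, hω'⟩ := exists_unimod (θ R)
      have h1 := hθ1 ((((1 + ε) / ‖R‖ : ℝ) : 𝕜) • (ω • R)) (by
        rw [norm_smul, norm_smul, hω, one_mul, RCLike.norm_ofReal,
          abs_of_pos (by positivity), div_mul_cancel₀ _ hRn.ne'])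
      rw [LinearMap.map_smul, LinearMap.map_smul, smul_eq_mul, smul_eq_mul, hω',
        ← RCLike.ofReal_mul, RCLike.ofReal_re, div_mul_eq_mul_div, div_lt_iff₀ hRn] at h1
      exact h1.le
  -- finite norming family
  obtain ⟨H, hH1, hH2⟩ := exists_finite_norming (𝕜 := 𝕜) F ε hε
  let T : (X →L[𝕜] F) →ₗ[𝕜] (H → StrongDual 𝕜 X) :=
    { toFun := fun R l => (l : StrongDual 𝕜 F).comp R
      map_add' := fun R S => by
        funext l
        ext x
        simp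
      map_smul' := fun c R => by
        funext l
        ext x
        simp }
  have hT : ∀ R l, T R l = (l : StrongDual 𝕜 F).comp R := fun R l => rfl
  have hTR : ∀ R, ‖R‖ ≤ (1 + ε) * ‖T R‖ := by
    intro R
    refine R.opNorm_le_bound (by positivity) fun x => ?_
    by_cases hx : R x = 0
    · rw [hx, norm_zero]; positivity
    · obtain ⟨l, hl, hl'⟩ := hH2 (R x) hx
      refine hl'.trans ?_
      rw [mul_assoc]
      refine mul_le_mul_of_nonneg_left ?_ (by linarith)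
      have h1 : ‖(T R ⟨l, hl⟩) x‖ ≤ ‖T R ⟨l, hl⟩‖ * ‖x‖ := (T R ⟨l, hl⟩).le_opNorm x
      have h2 : ‖T R ⟨l, hl⟩‖ ≤ ‖T R‖ := norm_le_pi_norm (T R) ⟨l, hl⟩
      exact h1.trans (mul_le_mul_of_nonneg_right h2 (norm_nonneg _))
  obtain ⟨Θ, hΘ1, hΘ2⟩ := helly_ext T θ s hs0.le (by
    intro R
    have h1 := hθ2 R
    have h2 := mul_le_mul_of_nonneg_left (hTR R) hs0.le
    have h3 : (1 + ε) * ‖θ R‖ ≤ (1 + ε) * (s * ‖T R‖) := by
      calc (1 + ε) * ‖θ R‖ ≤ s * ‖R‖ := h1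
        _ ≤ s * ((1 + ε) * ‖T R‖) := h2
        _ = (1 + ε) * (s * ‖T R‖) := by ring
    exact le_of_mul_le_mul_left h3 (by linarith))
  let ξ' : H → StrongDual 𝕜 (StrongDual 𝕜 X) := fun l =>
    Θ.comp (ContinuousLinearMap.single 𝕜 (fun _ : H => StrongDual 𝕜 X) l)
  have hξ' : ∀ φ : H → StrongDual 𝕜 X, Θ φ = ∑ l, ξ' l (φ l) := by
    intro φ
    conv_lhs => rw [← Finset.univ_sum_single φ]
    rw [map_sum]
    rfl
  have hsum := sum_norm_le Θ ξ' hξ'
  let lam : ι → 𝕜 := fun j => f fun i => if j = i then 1 else 0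
  have hf : ∀ v : ι → 𝕜, f v = ∑ j, v j * lam j := by
    intro v
    exact LinearMap.pi_apply_eq_sum_univ (f : (ι → 𝕜) →ₗ[𝕜] 𝕜) v
  have hid : ∀ v : F, ∑ j, (lam j * g j v) • ξ j = ∑ l : H, ((l : StrongDual 𝕜 F) v) • ξ' l := by
    intro v
    ext φ
    have h1 := hΘ2 (φ.smulRight v)
    rw [hξ'] at h1
    have h2 : θ (φ.smulRight v) = f (D (φ.smulRight v)) := rfl
    rw [h2, hf] at h1
    have h3 : ∀ l : H, ξ' l (T (φ.smulRight v) l) = ((l : StrongDual 𝕜 F) v) * ξ' l φ := by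
      intro l
      have e1 : T (φ.smulRight v) l = ((l : StrongDual 𝕜 F) v) • φ := by
        rw [hT]
        ext x
        simp [mul_comm]
      rw [e1, map_smul, smul_eq_mul]
    have h4 : ∀ j, D (φ.smulRight v) j = g j v * ξ j φ := by
      intro j
      have e1 : (g j).comp (φ.smulRight v) = (g j v) • φ := by
        ext x
        simp [mul_comm]
      rw [hD, e1, map_smul, smul_eq_mul]
    simp only [h3, h4] at h1
    rw [ContinuousLinearMap.sum_apply, ContinuousLinearMap.sum_apply]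
    have e2 : ∀ j, ((lam j * g j v) • ξ j) φ = g j v * ξ j φ * lam j := fun j => by
      show (lam j * g j v) * ξ j φ = _
      ring
    have e3 : ∀ l : H, (((l : StrongDual 𝕜 F) v) • ξ' l) φ = ((l : StrongDual 𝕜 F) v) * ξ' l φ :=
      fun l => rfl
    simp only [e2, e3]
    exact h1.symm
  -- trace computation
  let b := Module.finBasis 𝕜 F
  have htr : ∀ (h : StrongDual 𝕜 F) (w : F), h w = ∑ k, b.repr w k * h (b k) := by
    intro h w
    conv_lhs => rw [← b.sum_repr w]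
    rw [map_sum]
    simp
  have hL : f t = ∑ l : H, (l : StrongDual 𝕜 F) (A (ξ' l)) := by
    rw [hf]
    have e1 : ∀ j, t j * lam j = ∑ k, b.repr (A ((lam j * g j (b k)) • ξ j)) k := by
      intro j
      show g j (A (ξ j)) * lam j = _
      rw [htr (g j) (A (ξ j)), Finset.sum_mul]
      apply Finset.sum_congr rfl
      intro k _
      rw [map_smul, map_smul, Finsupp.smul_apply, smul_eq_mul]
      ring
    have e2 : ∀ l : H, (l : StrongDual 𝕜 F) (A (ξ' l)) =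
        ∑ k, b.repr (A (((l : StrongDual 𝕜 F) (b k)) • ξ' l)) k := by
      intro l
      rw [htr (l : StrongDual 𝕜 F) (A (ξ' l))]
      apply Finset.sum_congr rfl
      intro k _
      rw [map_smul, map_smul, Finsupp.smul_apply, smul_eq_mul]
      ring
    simp only [e1, e2]
    rw [Finset.sum_comm, Finset.sum_comm (s := Finset.univ (α := H))]
    apply Finset.sum_congr rfl
    intro k _
    have e3 := congrArg (fun η => b.repr (A η) k) (hid (b k))
    simp only [map_sum, Finsupp.coe_finset_sum, Finset.sum_apply] at e3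
    exact e3
  have hfin : ‖f t‖ ≤ s := by
    rw [hL]
    calc ‖∑ l : H, (l : StrongDual 𝕜 F) (A (ξ' l))‖
        ≤ ∑ l : H, ‖(l : StrongDual 𝕜 F) (A (ξ' l))‖ := norm_sum_le _ _
      _ ≤ ∑ l : H, ‖ξ' l‖ := Finset.sum_le_sum fun l _ => by
          refine ((l : StrongDual 𝕜 F).le_opNorm _).trans ?_
          calc ‖(l : StrongDual 𝕜 F)‖ * ‖A (ξ' l)‖ ≤ 1 * ‖ξ' l‖ :=
                mul_le_mul (hH1 _ l.2) (hA _) (norm_nonneg _) zero_le_one
            _ = ‖ξ' l‖ := one_mul _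
      _ ≤ ‖Θ‖ := hsum
      _ ≤ s := hΘ1
  have := re_le_norm (f t)
  linarith

end Pool.Agent.H130R4.DA
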