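import Mathlib
import Pool.Agent.H130R4.DA3

set_option autoImplicit false
set_option synthInstance.maxHeartbeats 400000

open Filter Topology

namespace Pool.Agent.H130R4.DA

/-- the bidual -/
abbrev Bidual (𝕜 : Type*) [RCLike 𝕜] (X : Type*) [NormedAddCommGroup X] [NormedSpace 𝕜 X] :
    Type _ := DualSpace 𝕜 (DualSpace 𝕜 X)

variable {𝕜 : Type*} [RCLike 𝕜] {X : Type*} [NormedAddCommGroup X] [NormedSpace 𝕜 X]
  {Y : Type*} [NormedAddCommGroup Y] [NormedSpace 𝕜 Y]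

/-- evaluation of an element of the bidual -/
def pair (ξ : Bidual 𝕜 X) (f : StrongDual 𝕜 X) : 𝕜 := (show StrongDual 𝕜 (StrongDual 𝕜 X) from ξ) f

theorem local_reflexivity' {F : Type*} [NormedAddCommGroup F] [NormedSpace 𝕜 F]
    [FiniteDimensional 𝕜 F]
    (A : Bidual 𝕜 X →L[𝕜] F) (hA : ∀ ξ, ‖A ξ‖ ≤ ‖ξ‖)
    {ι : Type*} [Fintype ι] (g : ι → StrongDual 𝕜 F)
    (ξ : ι → Bidual 𝕜 X) (ε : ℝ) (hε : 0 < ε) :
    ∃ R : X →L[𝕜] F, ‖R‖ ≤ 1 + ε ∧ ∀ j, ‖pair (ξ j) ((g j).comp R) - g j (A (ξ j))‖ < ε :=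
  local_reflexivity (X := X) A hA g ξ ε hε

/-- transfer of a bilinear form on `X** × Y` factoring through a finite-dimensional space -/
theorem transfer_aux {F : Type*} [NormedAddCommGroup F] [NormedSpace 𝕜 F]
    [FiniteDimensional 𝕜 F]
    (A : Bidual 𝕜 X →L[𝕜] F) (hA : ∀ ξ, ‖A ξ‖ ≤ ‖ξ‖)
    (H : F →L[𝕜] StrongDual 𝕜 Y) (hH : ∀ v, ‖H v‖ ≤ ‖v‖)
    {ι : Type*} [Fintype ι] (ξ : ι → Bidual 𝕜 X) (y : ι → Y)
    (ε : ℝ) (hε : 0 < ε) :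
    ∃ B : Y →L[𝕜] StrongDual 𝕜 X, (∀ y', ‖B y'‖ ≤ (1 + ε) * ‖y'‖) ∧
      ∀ j, ‖pair (ξ j) (B (y j)) - H (A (ξ j)) (y j)‖ < ε := by
  obtain ⟨R, hR1, hR2⟩ := local_reflexivity' A hA (fun j => H.flip (y j)) ξ ε hε
  let B0 : Y →ₗ[𝕜] StrongDual 𝕜 X :=
    { toFun := fun y' => (H.flip y').comp R
      map_add' := fun a b => by
        rw [map_add]
        ext x
        simp
      map_smul' := fun c a => by
        ext x
        simp }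
  have hB0 : ∀ y', ‖B0 y'‖ ≤ (1 + ε) * ‖y'‖ := by
    intro y'
    refine ((H.flip y').opNorm_comp_le R).trans ?_
    have h1 : ‖H.flip y'‖ ≤ ‖y'‖ := by
      refine ContinuousLinearMap.opNorm_le_bound _ (norm_nonneg _) fun v => ?_
      rw [ContinuousLinearMap.flip_apply]
      refine ((H v).le_opNorm y').trans ?_
      rw [mul_comm]
      exact mul_le_mul_of_nonneg_left (hH v) (norm_nonneg _)
    rw [mul_comm (1 + ε)]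
    exact mul_le_mul h1 hR1 (norm_nonneg _) (norm_nonneg _)
  exact ⟨B0.mkContinuous (1 + ε) hB0, hB0, hR2⟩

theorem transfer_Y (hY : MetricApproximationProperty 𝕜 Y)
    (A : Bidual 𝕜 X →L[𝕜] StrongDual 𝕜 Y) (hA : ∀ ξ, ‖A ξ‖ ≤ ‖ξ‖)
    {ι : Type*} [Fintype ι] (ξ : ι → Bidual 𝕜 X) (y : ι → Y)
    (ε : ℝ) (hε : 0 < ε) :
    ∃ B : Y →L[𝕜] StrongDual 𝕜 X, (∀ y', ‖B y'‖ ≤ (1 + ε) * ‖y'‖) ∧
      ∀ j, ‖pair (ξ j) (B (y j)) - A (ξ j) (y j)‖ < ε := by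
  set M : ℝ := ∑ j, ‖ξ j‖ with hM
  have hM0 : 0 ≤ M := Finset.sum_nonneg fun _ _ => norm_nonneg _
  have hMj : ∀ j, ‖ξ j‖ ≤ M := fun j =>
    Finset.single_le_sum (f := fun j => ‖ξ j‖) (fun _ _ => norm_nonneg _) (Finset.mem_univ j)
  set δ : ℝ := ε / (2 * (M + 1)) with hδ
  have hδ0 : 0 < δ := by positivity
  obtain ⟨S, hS1, hS2, hS3⟩ := hY (Set.range y) (Set.finite_range y).isCompact δ hδ0
  set F0 := LinearMap.range (S : Y →ₗ[𝕜] Y) with hF0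
  have : FiniteDimensional 𝕜 F0 := hS1
  let S' : Y →L[𝕜] F0 := S.codRestrict F0 (fun x => LinearMap.mem_range_self _ x)
  have hS' : ∀ v, ((S' v : F0) : Y) = S v := fun v => rfl
  have hS'n : ∀ v, ‖S' v‖ ≤ ‖v‖ := by
    intro v
    have h1 : ‖S v‖ ≤ 1 * ‖v‖ := S.le_of_opNorm_le hS2 v
    rw [one_mul] at h1
    exact h1
  -- restriction
  let r : StrongDual 𝕜 Y →L[𝕜] StrongDual 𝕜 F0 :=
    (ContinuousLinearMap.compL 𝕜 F0 Y 𝕜).flip F0.subtypeL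
  have hr : ∀ (f : StrongDual 𝕜 Y) (v : F0), r f v = f v := fun f v => rfl
  have hrn : ∀ f : StrongDual 𝕜 Y, ‖r f‖ ≤ ‖f‖ := by
    intro f
    refine ContinuousLinearMap.opNorm_le_bound _ (norm_nonneg _) fun v => ?_
    exact f.le_opNorm v
  let H : StrongDual 𝕜 F0 →L[𝕜] StrongDual 𝕜 Y :=
    (ContinuousLinearMap.compL 𝕜 Y F0 𝕜).flip S'
  have hH : ∀ (f : StrongDual 𝕜 F0) (v : Y), H f v = f (S' v) := fun f v => rfl
  have hHn : ∀ f : StrongDual 𝕜 F0, ‖H f‖ ≤ ‖f‖ := by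
    intro f
    refine ContinuousLinearMap.opNorm_le_bound _ (norm_nonneg _) fun v => ?_
    rw [hH]
    exact (f.le_opNorm _).trans (mul_le_mul_of_nonneg_left (hS'n v) (norm_nonneg _))
  obtain ⟨B, hB1, hB2⟩ := transfer_aux (r.comp A) (fun ξ => (hrn _).trans (hA ξ)) H hHn ξ y
    (ε / 2) (by linarith)
  refine ⟨B, fun y' => (hB1 y').trans (mul_le_mul_of_nonneg_right (by linarith)
    (norm_nonneg _)), fun j => ?_⟩
  have h1 := hB2 j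
  have h2 : H ((r.comp A) (ξ j)) (y j) = A (ξ j) (S (y j)) := rfl
  rw [h2] at h1
  have h3 : ‖A (ξ j) (S (y j)) - A (ξ j) (y j)‖ ≤ ε / 2 := by
    rw [← map_sub]
    refine ((A (ξ j)).le_opNorm _).trans ?_
    have h4 := (hS3 (y j) ⟨j, rfl⟩).le
    have h5 : ‖A (ξ j)‖ ≤ M := (hA _).trans (hMj j)
    calc ‖A (ξ j)‖ * ‖S (y j) - y j‖ ≤ M * δ := mul_le_mul h5 h4 (norm_nonneg _) hM0
      _ ≤ ε / 2 := by
        rw [hδ, mul_div_assoc', div_le_iff₀ (by positivity)]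
        nlinarith
  have h6 : pair (ξ j) (B (y j)) - A (ξ j) (y j) =
      (pair (ξ j) (B (y j)) - A (ξ j) (S (y j))) + (A (ξ j) (S (y j)) - A (ξ j) (y j)) := by ring
  rw [h6]
  have h7 := norm_add_le (pair (ξ j) (B (y j)) - A (ξ j) (S (y j)))
    (A (ξ j) (S (y j)) - A (ξ j) (y j))
  linarith

theorem transfer_X (hX : MetricApproximationProperty 𝕜 (Bidual 𝕜 X))
    (A : Bidual 𝕜 X →L[𝕜] StrongDual 𝕜 Y) (hA : ∀ ξ, ‖A ξ‖ ≤ ‖ξ‖)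
    {ι : Type*} [Fintype ι] (ξ : ι → Bidual 𝕜 X) (y : ι → Y)
    (ε : ℝ) (hε : 0 < ε) :
    ∃ B : Y →L[𝕜] StrongDual 𝕜 X, (∀ y', ‖B y'‖ ≤ (1 + ε) * ‖y'‖) ∧
      ∀ j, ‖pair (ξ j) (B (y j)) - A (ξ j) (y j)‖ < ε := by
  set M : ℝ := ∑ j, ‖y j‖ with hM
  have hM0 : 0 ≤ M := Finset.sum_nonneg fun _ _ => norm_nonneg _
  have hMj : ∀ j, ‖y j‖ ≤ M := fun j =>
    Finset.single_le_sum (f := fun j => ‖y j‖) (fun _ _ => norm_nonneg _) (Finset.mem_univ j)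
  set δ : ℝ := ε / (2 * (M + 1)) with hδ
  have hδ0 : 0 < δ := by positivity
  obtain ⟨S, hS1, hS2, hS3⟩ := hX (Set.range ξ) (Set.finite_range ξ).isCompact δ hδ0
  set F0 := LinearMap.range (S : Bidual 𝕜 X →ₗ[𝕜] Bidual 𝕜 X) with hF0
  have : FiniteDimensional 𝕜 F0 := hS1
  let S' : Bidual 𝕜 X →L[𝕜] F0 :=
    S.codRestrict F0 (fun x => LinearMap.mem_range_self _ x)
  have hS' : ∀ v, ((S' v : F0) : Bidual 𝕜 X) = S v := fun v => rfl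
  have hS'n : ∀ v, ‖S' v‖ ≤ ‖v‖ := by
    intro v
    have h1 : ‖S v‖ ≤ 1 * ‖v‖ := S.le_of_opNorm_le hS2 v
    rw [one_mul] at h1
    exact h1
  let H : F0 →L[𝕜] StrongDual 𝕜 Y := A.comp F0.subtypeL
  have hHn : ∀ v : F0, ‖H v‖ ≤ ‖v‖ := fun v => hA _
  obtain ⟨B, hB1, hB2⟩ := transfer_aux S' hS'n H hHn ξ y (ε / 2) (by linarith)
  refine ⟨B, fun y' => (hB1 y').trans (mul_le_mul_of_nonneg_right (by linarith)
    (norm_nonneg _)), fun j => ?_⟩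
  have h1 := hB2 j
  have h2 : H (S' (ξ j)) (y j) = A (S (ξ j)) (y j) := rfl
  rw [h2] at h1
  have h3 : ‖A (S (ξ j)) (y j) - A (ξ j) (y j)‖ ≤ ε / 2 := by
    have e1 : A (S (ξ j)) (y j) - A (ξ j) (y j) = A (S (ξ j) - ξ j) (y j) := by
      rw [map_sub]; rfl
    rw [e1]
    refine ((A (S (ξ j) - ξ j)).le_opNorm _).trans ?_
    have h4 : ‖A (S (ξ j) - ξ j)‖ ≤ δ := (hA _).trans (hS3 (ξ j) ⟨j, rfl⟩).le
    calc ‖A (S (ξ j) - ξ j)‖ * ‖y j‖ ≤ δ * M := mul_le_mul h4 (hMj j) (norm_nonneg _) hδ0.le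
      _ ≤ ε / 2 := by
        rw [hδ, div_mul_eq_mul_div, div_le_iff₀ (by positivity)]
        nlinarith
  have h6 : pair (ξ j) (B (y j)) - A (ξ j) (y j) =
      (pair (ξ j) (B (y j)) - A (S (ξ j)) (y j)) + (A (S (ξ j)) (y j) - A (ξ j) (y j)) := by ring
  rw [h6]
  have h7 := norm_add_le (pair (ξ j) (B (y j)) - A (S (ξ j)) (y j))
    (A (S (ξ j)) (y j) - A (ξ j) (y j))
  linarith

/-- the bilinear form on `(X ⊕₁ Z) × Y` -/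
theorem exists_Bhat {E : Type*} [NormedAddCommGroup E] [NormedSpace 𝕜 E]
    (J : X →ₗ[𝕜] E) (Z : Submodule 𝕜 E)
    (h1 : ∀ ξ : E, ∃ x : X, ∃ z ∈ Z, ξ = J x + z)
    (h2 : ∀ x : X, ∀ z ∈ Z, ‖J x + z‖ = ‖x‖ + ‖z‖)
    (b : X →L[𝕜] StrongDual 𝕜 Y) (hb : ∀ x, ‖b x‖ ≤ ‖x‖)
    (z : E) (hz : z ∈ Z) (hz1 : ‖z‖ = 1) (ψ : StrongDual 𝕜 Y) (hψ : ‖ψ‖ ≤ 1) :
    ∃ A : E →L[𝕜] StrongDual 𝕜 Y, (∀ ξ, ‖A ξ‖ ≤ ‖ξ‖) ∧ (∀ x, A (J x) = b x) ∧ A z = ψ := by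
  have uniq : ∀ (x x' : X) (w w' : E), w ∈ Z → w' ∈ Z → J x + w = J x' + w' →
      x = x' ∧ w = w' := by
    intro x x' w w' hw hw' h
    have e1 : J (x - x') + (w - w') = 0 := by
      rw [map_sub]
      have : J x + w - (J x' + w') = 0 := sub_eq_zero.mpr h
      rw [← this]; abel
    have e2 := h2 (x - x') (w - w') (Z.sub_mem hw hw')
    rw [e1, norm_zero] at e2
    have e3 : ‖x - x'‖ = 0 := by linarith [norm_nonneg (x - x'), norm_nonneg (w - w')]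
    have e4 : ‖w - w'‖ = 0 := by linarith [norm_nonneg (x - x'), norm_nonneg (w - w')]
    exact ⟨sub_eq_zero.mp (norm_eq_zero.mp e3), sub_eq_zero.mp (norm_eq_zero.mp e4)⟩
  choose P Q hQ hPQ using h1
  obtain ⟨φ, hφ1, hφ2⟩ := exists_dual_vector'' 𝕜 z
  have hPadd : ∀ ξ ζ, P (ξ + ζ) = P ξ + P ζ ∧ Q (ξ + ζ) = Q ξ + Q ζ := by
    intro ξ ζ
    apply uniq _ _ _ _ (hQ _) (Z.add_mem (hQ _) (hQ _))
    rw [← hPQ, map_add]
    conv_lhs => rw [hPQ ξ, hPQ ζ]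
    abel
  have hPsmul : ∀ (c : 𝕜) ξ, P (c • ξ) = c • P ξ ∧ Q (c • ξ) = c • Q ξ := by
    intro c ξ
    apply uniq _ _ _ _ (hQ _) (Z.smul_mem _ (hQ _))
    rw [← hPQ, map_smul]
    conv_lhs => rw [hPQ ξ]
    rw [smul_add]
  let A0 : E →ₗ[𝕜] StrongDual 𝕜 Y :=
    { toFun := fun ξ => b (P ξ) + φ (Q ξ) • ψ
      map_add' := fun ξ ζ => by
        ext v
        rw [(hPadd ξ ζ).1, (hPadd ξ ζ).2]
        simp
        ring
      map_smul' := fun c ξ => by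
        ext v
        rw [(hPsmul c ξ).1, (hPsmul c ξ).2]
        simp
        ring }
  have hA0 : ∀ ξ, ‖A0 ξ‖ ≤ 1 * ‖ξ‖ := by
    intro ξ
    show ‖b (P ξ) + φ (Q ξ) • ψ‖ ≤ 1 * ‖ξ‖
    have e1 : ‖ξ‖ = ‖P ξ‖ + ‖Q ξ‖ := by
      conv_lhs => rw [hPQ ξ]
      exact h2 _ _ (hQ ξ)
    rw [e1, one_mul]
    refine (norm_add_le _ _).trans (add_le_add (hb _) ?_)
    rw [norm_smul]
    have e2 : ‖φ (Q ξ)‖ ≤ ‖Q ξ‖ := by
      have := φ.le_of_opNorm_le hφ1 (Q ξ)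
      rwa [one_mul] at this
    calc ‖φ (Q ξ)‖ * ‖ψ‖ ≤ ‖Q ξ‖ * 1 := mul_le_mul e2 hψ (norm_nonneg _) (norm_nonneg _)
      _ = ‖Q ξ‖ := mul_one _
  refine ⟨A0.mkContinuous 1 hA0, fun ξ => ?_, fun x => ?_, ?_⟩
  · have := hA0 ξ
    rw [one_mul] at this
    exact this
  · show b (P (J x)) + φ (Q (J x)) • ψ = b x
    obtain ⟨e1, e2⟩ := uniq (P (J x)) x (Q (J x)) 0 (hQ _) Z.zero_mem (by
      rw [← hPQ, add_zero])
    rw [e1, e2, map_zero]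
    ext v
    simp
  · show b (P z) + φ (Q z) • ψ = ψ
    obtain ⟨e1, e2⟩ := uniq (P z) 0 (Q z) z (hQ _) hz (by
      rw [← hPQ, map_zero, zero_add])
    rw [e1, e2, map_zero, zero_add, hφ2, hz1]
    simp

end Pool.Agent.H130R4.DA
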