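import Mathlib
import Pool.Agent.H130R4.DA4

set_option autoImplicit false
set_option synthInstance.maxHeartbeats 400000

open Filter Topology
open scoped TensorProduct

namespace Pool.Agent.H130R4.DA

variable {𝕜 : Type*} [RCLike 𝕜] {X : Type*} [NormedAddCommGroup X] [NormedSpace 𝕜 X]
  {Y : Type*} [NormedAddCommGroup Y] [NormedSpace 𝕜 Y]

/-- a functional on the algebraic tensor product is bounded by the projective norm -/
theorem bound_of_tmul (L : ProjTensor 𝕜 X Y →ₗ[𝕜] 𝕜) (C : ℝ) (hC : 0 ≤ C)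
    (h : ∀ x y, ‖L (ProjTensor.tmul 𝕜 x y)‖ ≤ C * (‖x‖ * ‖y‖)) (t : ProjTensor 𝕜 X Y) :
    ‖L t‖ ≤ C * ‖t‖ := by
  have h1 : ∀ r ∈ t.repSums, ‖L t‖ ≤ C * r := by
    rintro r ⟨n, x, y, ht, rfl⟩
    rw [ht, map_sum, Finset.mul_sum]
    exact (norm_sum_le _ _).trans (Finset.sum_le_sum fun i _ => h _ _)
  rw [ProjTensor.norm_def]
  refine le_of_forall_pos_le_add fun ε hε => ?_
  obtain ⟨r, hr, hr'⟩ := exists_lt_of_csInf_lt t.repSums_nonempty
    (show sInf t.repSums < t.projNorm + ε / (C + 1) by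
      have h2 : t.projNorm = sInf t.repSums := rfl
      have : 0 < ε / (C + 1) := by positivity
      linarith)
  have h3 := h1 r hr
  have h4 : C * r ≤ C * (t.projNorm + ε / (C + 1)) := mul_le_mul_of_nonneg_left hr'.le hC
  have h5 : C * (ε / (C + 1)) ≤ ε := by
    rw [mul_div_assoc', div_le_iff₀ (by positivity)]
    nlinarith
  nlinarith

theorem norm_tmul_le (x : X) (y : Y) : ‖ProjTensor.tmul 𝕜 x y‖ ≤ ‖x‖ * ‖y‖ := by
  rw [ProjTensor.norm_def]
  exact csInf_le (ProjTensor.bddBelow_repSums _)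
    ⟨1, fun _ => x, fun _ => y, by simp, by simp⟩

/-- the inclusion into the completion -/
noncomputable def incl : ProjTensor 𝕜 X Y →ₗ[𝕜] ProjectiveTensorProduct 𝕜 X Y :=
  (UniformSpace.Completion.toComplL (𝕜 := 𝕜) (E := ProjTensor 𝕜 X Y) :
    ProjTensor 𝕜 X Y →ₗ[𝕜] ProjectiveTensorProduct 𝕜 X Y)

theorem norm_incl (t : ProjTensor 𝕜 X Y) :
    ‖(incl t : ProjectiveTensorProduct 𝕜 X Y)‖ = ‖t‖ :=
  UniformSpace.Completion.norm_coe t

theorem dense_incl (w : ProjectiveTensorProduct 𝕜 X Y) (ε : ℝ) (hε : 0 < ε) :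
    ∃ t : ProjTensor 𝕜 X Y, ‖w - incl t‖ < ε := by
  have h := (UniformSpace.Completion.denseRange_coe (α := ProjTensor 𝕜 X Y))
  obtain ⟨t, ht⟩ := h.exists_dist_lt w hε
  refine ⟨t, ?_⟩
  rw [← dist_eq_norm]
  exact ht

/-- functional associated with a bounded bilinear form -/
theorem exists_functional_of_bilin (B : Y →L[𝕜] StrongDual 𝕜 X) (C : ℝ) (hC : 0 ≤ C)
    (hB : ∀ y, ‖B y‖ ≤ C * ‖y‖) :
    ∃ G : StrongDual 𝕜 (ProjectiveTensorProduct 𝕜 X Y), ‖G‖ ≤ C ∧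
      ∀ x y, G (incl (ProjTensor.tmul 𝕜 x y)) = B y x := by
  let L : ProjTensor 𝕜 X Y →ₗ[𝕜] 𝕜 :=
    TensorProduct.lift (LinearMap.mk₂ 𝕜 (fun (x : X) (y : Y) => B y x)
      (fun x x' y => by simp) (fun c x y => by simp) (fun x y y' => by simp)
      (fun c x y => by simp))
  have hL : ∀ x y, L (ProjTensor.tmul 𝕜 x y) = B y x := fun x y => by
    show TensorProduct.lift _ (x ⊗ₜ[𝕜] y) = _
    rw [TensorProduct.lift.tmul]
    rfl
  obtain ⟨G, hG1, hG2⟩ := helly_ext (incl (𝕜 := 𝕜) (X := X) (Y := Y)) L C hC (by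
    intro t
    rw [norm_incl]
    refine bound_of_tmul L C hC (fun x y => ?_) t
    rw [hL]
    refine ((B y).le_opNorm x).trans ?_
    calc ‖B y‖ * ‖x‖ ≤ (C * ‖y‖) * ‖x‖ := mul_le_mul_of_nonneg_right (hB y) (norm_nonneg _)
      _ = C * (‖x‖ * ‖y‖) := by ring)
  exact ⟨G, hG1, fun x y => by rw [hG2, hL]⟩

/-- the functional `G(·, y)` -/
noncomputable def slc (G : StrongDual 𝕜 (ProjectiveTensorProduct 𝕜 X Y)) (y : Y) :
    StrongDual 𝕜 X :=
  LinearMap.mkContinuous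
    { toFun := fun x => G (incl (ProjTensor.tmul 𝕜 x y))
      map_add' := fun x x' => by
        have : ProjTensor.tmul 𝕜 (x + x') y = ProjTensor.tmul 𝕜 x y + ProjTensor.tmul 𝕜 x' y :=
          TensorProduct.add_tmul x x' y
        rw [this, map_add, map_add]
      map_smul' := fun c x => by
        have : ProjTensor.tmul 𝕜 (c • x) y = c • ProjTensor.tmul 𝕜 x y :=
          (TensorProduct.smul_tmul' c x y).symm
        rw [this, map_smul, map_smul]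
        rfl }
    (‖G‖ * ‖y‖) (fun x => by
      refine (G.le_opNorm _).trans ?_
      rw [norm_incl]
      calc ‖G‖ * ‖ProjTensor.tmul 𝕜 x y‖ ≤ ‖G‖ * (‖x‖ * ‖y‖) :=
            mul_le_mul_of_nonneg_left (norm_tmul_le x y) (norm_nonneg _)
        _ = ‖G‖ * ‖y‖ * ‖x‖ := by ring)

theorem slc_apply (G : StrongDual 𝕜 (ProjectiveTensorProduct 𝕜 X Y)) (y : Y) (x : X) :
    slc G y x = G (incl (ProjTensor.tmul 𝕜 x y)) := rfl

theorem norm_slc_le (G : StrongDual 𝕜 (ProjectiveTensorProduct 𝕜 X Y)) (y : Y) :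
    ‖slc G y‖ ≤ ‖G‖ * ‖y‖ :=
  LinearMap.mkContinuous_norm_le _ (by positivity) _

theorem exists_big_slice (G : StrongDual 𝕜 (ProjectiveTensorProduct 𝕜 X Y)) (α : ℝ)
    (hG : ‖G‖ = 1) (hα : 0 < α) (hα1 : α < 1) : ∃ y : Y, ‖y‖ = 1 ∧ 1 - α < ‖slc G y‖ := by
  by_contra hcon
  push Not at hcon
  have h1 : ∀ (x : X) (y : Y), ‖G (incl (ProjTensor.tmul 𝕜 x y))‖ ≤ (1 - α) * (‖x‖ * ‖y‖) := by
    intro x y
    by_cases hy : y = 0
    · have e1 : ProjTensor.tmul 𝕜 x y = 0 := by rw [hy]; exact TensorProduct.tmul_zero _ _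
      rw [e1, map_zero, map_zero, norm_zero, hy, norm_zero]; simp
    · have hyn : 0 < ‖y‖ := norm_pos_iff.mpr hy
      have h2 := hcon (((‖y‖⁻¹ : ℝ) : 𝕜) • y) (by
        rw [norm_smul, RCLike.norm_ofReal, abs_of_pos (inv_pos.mpr hyn), inv_mul_cancel₀ hyn.ne'])
      have h3 := (slc G (((‖y‖⁻¹ : ℝ) : 𝕜) • y)).le_of_opNorm_le h2 x
      have e1 : slc G (((‖y‖⁻¹ : ℝ) : 𝕜) • y) x =
          ((‖y‖⁻¹ : ℝ) : 𝕜) * G (incl (ProjTensor.tmul 𝕜 x y)) := by
        rw [slc_apply]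
        have : ProjTensor.tmul 𝕜 x (((‖y‖⁻¹ : ℝ) : 𝕜) • y) =
            ((‖y‖⁻¹ : ℝ) : 𝕜) • ProjTensor.tmul 𝕜 x y := TensorProduct.tmul_smul _ _ _
        rw [this, map_smul, map_smul, smul_eq_mul]
      rw [e1, norm_mul, RCLike.norm_ofReal, abs_of_pos (inv_pos.mpr hyn),
        inv_mul_le_iff₀ hyn] at h3
      calc _ ≤ ‖y‖ * ((1 - α) * ‖x‖) := h3
        _ = (1 - α) * (‖x‖ * ‖y‖) := by ring
  have h2 : ∀ t : ProjTensor 𝕜 X Y, ‖G (incl t)‖ ≤ (1 - α) * ‖t‖ := fun t =>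
    bound_of_tmul ((G : ProjectiveTensorProduct 𝕜 X Y →ₗ[𝕜] 𝕜).comp incl) (1 - α)
      (by linarith) h1 t
  have h3 : ‖G‖ ≤ 1 - α := by
    refine G.opNorm_le_bound (by linarith) fun w => ?_
    refine le_of_forall_pos_le_add fun ε hε => ?_
    obtain ⟨t, ht⟩ := dense_incl w (ε / 2) (by linarith)
    have e1 : ‖G w‖ ≤ ‖G (incl t)‖ + ‖w - incl t‖ := by
      have e2 : G w = G (incl t) + G (w - incl t) := by rw [← map_add]; congr 1; abel
      rw [e2]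
      refine (norm_add_le _ _).trans (add_le_add le_rfl ?_)
      have := G.le_opNorm (w - incl t)
      rwa [hG, one_mul] at this
    have e3 : ‖t‖ ≤ ‖w‖ + ‖w - incl t‖ := by
      rw [← norm_incl (𝕜 := 𝕜) t]
      have e4 : (incl t : ProjectiveTensorProduct 𝕜 X Y) = w - (w - incl t) := by abel
      conv_lhs => rw [e4]
      exact norm_sub_le _ _
    have e5 := h2 t
    have e6 : (1 - α) * ‖t‖ ≤ (1 - α) * (‖w‖ + ‖w - incl t‖) :=
      mul_le_mul_of_nonneg_left e3 (by linarith)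
    have e7 : (1 - α) * ‖w - incl t‖ ≤ 1 * ‖w - incl t‖ :=
      mul_le_mul_of_nonneg_right (by linarith) (norm_nonneg _)
    linarith
  linarith

end Pool.Agent.H130R4.DA
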