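import Mathlib
import Pool.Agent.H130R4.DA5

set_option autoImplicit false
set_option synthInstance.maxHeartbeats 400000

open Filter Topology
open scoped TensorProduct

namespace Pool.Agent.H130R4.DA

variable {𝕜 : Type*} [RCLike 𝕜] {X : Type*} [NormedAddCommGroup X] [NormedSpace 𝕜 X]
  {Y : Type*} [NormedAddCommGroup Y] [NormedSpace 𝕜 Y]

theorem bridge (hDP : DaugavetProperty 𝕜 X) (hL : LEmbedded 𝕜 X) :
    ∃ (J : X →ₗ[𝕜] Bidual 𝕜 X) (Z : Submodule 𝕜 (Bidual 𝕜 X)),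
      (∀ ξ : Bidual 𝕜 X, ∃ x : X, ∃ z ∈ Z, ξ = J x + z) ∧
      (∀ x : X, ∀ z ∈ Z, ‖J x + z‖ = ‖x‖ + ‖z‖) ∧
      (∀ (x : X) (f : StrongDual 𝕜 X), pair (J x) f = f x) ∧
      ∀ f : StrongDual 𝕜 X, ‖f‖ = 1 → ∀ η : ℝ, 0 < η →
        ∃ z ∈ Z, ‖z‖ = 1 ∧ 1 - η < RCLike.re (pair z f) := by
  obtain ⟨Z, _, hZ1, hZ2⟩ := hL
  let J : X →ₗ[𝕜] Bidual 𝕜 X :=
    { toFun := canon 𝕜
      map_add' := fun x y => ContinuousLinearMap.ext fun f => map_add
        (show StrongDual 𝕜 X from f) x y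
      map_smul' := fun c x => ContinuousLinearMap.ext fun f => map_smul
        (show StrongDual 𝕜 X from f) c x }
  exact ⟨J, Z, hZ1, hZ2, fun _ _ => rfl, fun f hf η hη => key_lemma hDP Z hZ1 hZ2 f hf η hη⟩

theorem pair_add (ξ : Bidual 𝕜 X) (f g : StrongDual 𝕜 X) :
    pair ξ (f + g) = pair ξ f + pair ξ g :=
  map_add (show StrongDual 𝕜 (StrongDual 𝕜 X) from ξ) f g

theorem pair_smul (ξ : Bidual 𝕜 X) (c : 𝕜) (f : StrongDual 𝕜 X) :
    pair ξ (c • f) = c * pair ξ f :=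
  map_smul (show StrongDual 𝕜 (StrongDual 𝕜 X) from ξ) c f

theorem norm_pair_le (ξ : Bidual 𝕜 X) (f : StrongDual 𝕜 X) : ‖pair ξ f‖ ≤ ‖ξ‖ * ‖f‖ :=
  (show StrongDual 𝕜 (StrongDual 𝕜 X) from ξ).le_opNorm f

/-- bilinear form of a functional -/
theorem exists_bil (G : StrongDual 𝕜 (ProjectiveTensorProduct 𝕜 X Y)) (hG : ‖G‖ ≤ 1) :
    ∃ b : X →L[𝕜] StrongDual 𝕜 Y, (∀ x, ‖b x‖ ≤ ‖x‖) ∧
      ∀ x y, b x y = G (incl (ProjTensor.tmul 𝕜 x y)) := by
  have hbd : ∀ x y, ‖G (incl (ProjTensor.tmul 𝕜 x y))‖ ≤ 1 * ‖x‖ * ‖y‖ := fun x y => by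
    refine (G.le_of_opNorm_le hG _).trans ?_
    rw [norm_incl, mul_assoc]
    exact mul_le_mul_of_nonneg_left (norm_tmul_le x y) zero_le_one
  let b := LinearMap.mkContinuous₂ (LinearMap.mk₂ 𝕜
    (fun (x : X) (y : Y) => G (incl (ProjTensor.tmul 𝕜 x y)))
    (fun x x' y => by
      have : ProjTensor.tmul 𝕜 (x + x') y = ProjTensor.tmul 𝕜 x y + ProjTensor.tmul 𝕜 x' y :=
        TensorProduct.add_tmul x x' y
      rw [this, map_add, map_add])
    (fun c x y => by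
      have : ProjTensor.tmul 𝕜 (c • x) y = c • ProjTensor.tmul 𝕜 x y :=
        (TensorProduct.smul_tmul' c x y).symm
      rw [this, map_smul, map_smul])
    (fun x y y' => by
      have : ProjTensor.tmul 𝕜 x (y + y') = ProjTensor.tmul 𝕜 x y + ProjTensor.tmul 𝕜 x y' :=
        TensorProduct.tmul_add x y y'
      rw [this, map_add, map_add])
    (fun c x y => by
      have : ProjTensor.tmul 𝕜 x (c • y) = c • ProjTensor.tmul 𝕜 x y :=
        TensorProduct.tmul_smul c x y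
      rw [this, map_smul, map_smul])) 1 hbd
  have hb : ∀ x y, b x y = G (incl (ProjTensor.tmul 𝕜 x y)) := fun x y => rfl
  refine ⟨b, fun x => ?_, hb⟩
  refine ContinuousLinearMap.opNorm_le_bound _ (norm_nonneg _) fun y => ?_
  rw [hb]
  have := hbd x y
  rwa [one_mul] at this

theorem main_slice (hDP : DaugavetProperty 𝕜 X) (hL : LEmbedded 𝕜 X)
    (hM : MetricApproximationProperty 𝕜 (DualSpace 𝕜 (DualSpace 𝕜 X)) ∨
      MetricApproximationProperty 𝕜 Y)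
    (t : ProjTensor 𝕜 X Y) (G : StrongDual 𝕜 (ProjectiveTensorProduct 𝕜 X Y)) (hG : ‖G‖ = 1)
    (ε : ℝ) (hε : 0 < ε) :
    ∃ (x : X) (y : Y), ‖x‖ ≤ 1 ∧ ‖y‖ ≤ 1 ∧ 1 - ε < RCLike.re (G (incl (ProjTensor.tmul 𝕜 x y))) ∧
      ‖t‖ + 1 - ε < ‖t + ProjTensor.tmul 𝕜 x y‖ := by
  obtain ⟨_, n, xs, ys, ht, -⟩ := t.repSums_nonempty
  set α : ℝ := min (ε / 8) (1 / 2) with hα
  have hα0 : 0 < α := lt_min (by linarith) (by norm_num)
  have hα1 : α ≤ ε / 8 := min_le_left _ _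
  have hα2 : α ≤ 1 / 2 := min_le_right _ _
  obtain ⟨y0, hy0, hy0'⟩ := exists_big_slice G α hG hα0 (by linarith)
  set g := slc G y0 with hg
  have hg1 : ‖g‖ ≤ 1 := by
    have := norm_slc_le G y0
    rwa [hG, hy0, mul_one] at this
  have hg0 : 0 < ‖g‖ := by linarith
  obtain ⟨J, Z, hZ1, hZ2, hJ, hkey⟩ := bridge hDP hL
  obtain ⟨z, hz, hz1, hzf⟩ := hkey (((‖g‖⁻¹ : ℝ) : 𝕜) • g) (by
    rw [norm_smul, RCLike.norm_ofReal, abs_of_pos (inv_pos.mpr hg0), inv_mul_cancel₀ hg0.ne'])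
    α hα0
  have hzg : 1 - 2 * α ≤ RCLike.re (pair z g) := by
    rw [pair_smul, RCLike.re_ofReal_mul, inv_mul_eq_div, lt_div_iff₀ hg0] at hzf
    nlinarith
  obtain ⟨B1, hB1, hB1'⟩ := exists_dual_vector'' 𝕜 (incl t : ProjectiveTensorProduct 𝕜 X Y)
  obtain ⟨b, hb1, hb2⟩ := exists_bil B1 hB1
  obtain ⟨ψ, hψ1, hψ2⟩ := exists_dual_vector'' 𝕜 y0
  obtain ⟨A, hA1, hA2, hA3⟩ := exists_Bhat J Z hZ1 hZ2 b hb1 z hz hz1 ψ hψ1
  set ε' : ℝ := ε / (4 * (n + 2 + ‖t‖)) with hε'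
  have hnt : 0 < (n : ℝ) + 2 + ‖t‖ := by positivity
  have hε'0 : 0 < ε' := by positivity
  have hε'1 : ε' * (n + 2 + ‖t‖) = ε / 4 := by rw [hε']; field_simp
  have hε'2 : ε' ≤ ε / 8 := by nlinarith [norm_nonneg t, (Nat.cast_nonneg n : (0 : ℝ) ≤ n)]
  obtain ⟨B, hBn, hB⟩ : ∃ B : Y →L[𝕜] StrongDual 𝕜 X, (∀ y', ‖B y'‖ ≤ (1 + ε') * ‖y'‖) ∧
      ∀ j : Option (Fin n), ‖pair (Option.elim j z fun i => J (xs i))
        (B (Option.elim j y0 fun i => ys i)) -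
        A (Option.elim j z fun i => J (xs i)) (Option.elim j y0 fun i => ys i)‖ < ε' := by
    rcases hM with hM | hM
    · exact transfer_X hM A hA1 _ _ ε' hε'0
    · exact transfer_Y hM A hA1 _ _ ε' hε'0
  have hBz : ‖pair z (B y0) - 1‖ < ε' := by
    have h1 := hB none
    have h2 : A z y0 = 1 := by rw [hA3, hψ2, hy0]; simp
    simp only [Option.elim_none] at h1
    rwa [h2] at h1
  have hBi : ∀ i, ‖B (ys i) (xs i) - B1 (incl (ProjTensor.tmul 𝕜 (xs i) (ys i)))‖ < ε' := by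
    intro i
    have h1 := hB (some i)
    simp only [Option.elim_some] at h1
    rwa [hJ, hA2, hb2] at h1
  obtain ⟨GB, hGB1, hGB2⟩ := exists_functional_of_bilin B (1 + ε') (by linarith) hBn
  have hGBt : ‖t‖ - n * ε' ≤ RCLike.re (GB (incl t)) := by
    have h1 : GB (incl t) = ∑ i, B (ys i) (xs i) := by
      rw [ht, map_sum, map_sum]
      exact Finset.sum_congr rfl fun i _ => hGB2 _ _
    have h2 : ∑ i, B1 (incl (ProjTensor.tmul 𝕜 (xs i) (ys i))) = ((‖t‖ : ℝ) : 𝕜) := by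
      rw [← map_sum, ← map_sum, ← ht, hB1', norm_incl]
    have h3 : ‖((‖t‖ : ℝ) : 𝕜) - GB (incl t)‖ ≤ n * ε' := by
      rw [← h2, h1, ← Finset.sum_sub_distrib]
      refine (norm_sum_le _ _).trans ?_
      calc ∑ i, ‖B1 (incl (ProjTensor.tmul 𝕜 (xs i) (ys i))) - B (ys i) (xs i)‖
          ≤ ∑ _i : Fin n, ε' := Finset.sum_le_sum fun i _ => by
            rw [norm_sub_rev]; exact (hBi i).le
        _ = n * ε' := by rw [Finset.sum_const, Finset.card_univ, Fintype.card_fin, nsmul_eq_mul]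
    have h4 := re_le_norm (((‖t‖ : ℝ) : 𝕜) - GB (incl t))
    rw [map_sub, RCLike.ofReal_re] at h4
    linarith
  have hz' : 1 - ε' ≤ RCLike.re (pair z (B y0)) := by
    have h4 := re_le_norm (1 - pair z (B y0))
    rw [norm_sub_rev, map_sub, RCLike.one_re] at h4
    linarith
  obtain ⟨x, hx1, hx2⟩ := exists_almost_norming (B y0 + g) α hα0
  have hΦ : 1 - ε' + (1 - 2 * α) ≤ ‖B y0 + g‖ := by
    have h1 : RCLike.re (pair z (B y0 + g)) ≤ ‖B y0 + g‖ := by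
      refine (re_le_norm _).trans ((norm_pair_le _ _).trans ?_)
      rw [hz1, one_mul]
    rw [pair_add, map_add] at h1
    linarith
  have hsum : 1 - ε' + (1 - 2 * α) - α ≤ RCLike.re (B y0 x) + RCLike.re (g x) := by
    have h1 : (B y0 + g) x = B y0 x + g x := rfl
    rw [h1, map_add] at hx2
    linarith
  have hBx : RCLike.re (B y0 x) ≤ 1 + ε' := by
    refine (re_le_norm _).trans (((B y0).le_opNorm x).trans ?_)
    have h1 := hBn y0
    rw [hy0, mul_one] at h1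
    calc ‖B y0‖ * ‖x‖ ≤ (1 + ε') * 1 := mul_le_mul h1 hx1 (norm_nonneg _) (by linarith)
      _ = 1 + ε' := mul_one _
  have hgx : RCLike.re (g x) ≤ 1 := re_apply_le g x hg1 hx1
  refine ⟨x, y0, hx1, hy0.le, ?_, ?_⟩
  · have h1 : G (incl (ProjTensor.tmul 𝕜 x y0)) = g x := rfl
    rw [h1]
    linarith
  · set N := ‖t + ProjTensor.tmul 𝕜 x y0‖ with hN
    have h1 : RCLike.re (GB (incl t)) + RCLike.re (B y0 x) ≤ (1 + ε') * N := by
      have e1 : GB (incl t) + B y0 x = GB (incl (t + ProjTensor.tmul 𝕜 x y0)) := by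
        rw [map_add, map_add, hGB2]
      rw [← map_add, e1]
      refine (re_le_norm _).trans ((GB.le_of_opNorm_le hGB1 _).trans ?_)
      rw [norm_incl]
    have h2 : N ≤ ‖t‖ + 1 := by
      refine (norm_add_le _ _).trans (add_le_add le_rfl ((norm_tmul_le x y0).trans ?_))
      rw [hy0, mul_one]; exact hx1
    have h3 : ε' * N ≤ ε' * (‖t‖ + 1) := mul_le_mul_of_nonneg_left h2 hε'0.le
    nlinarith

set_option maxHeartbeats 1000000 in
theorem main_daugavet (hDP : DaugavetProperty 𝕜 X) (hL : LEmbedded 𝕜 X)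
    (hM : MetricApproximationProperty 𝕜 (DualSpace 𝕜 (DualSpace 𝕜 X)) ∨
      MetricApproximationProperty 𝕜 Y) :
    DaugavetProperty 𝕜 (ProjectiveTensorProduct 𝕜 X Y) := by
  intro T hT
  obtain ⟨⟨w, hw⟩, hw0, hwspan⟩ := finrank_eq_one_iff'.mp
    (show Module.finrank 𝕜 (LinearMap.range (T : ProjectiveTensorProduct 𝕜 X Y →ₗ[𝕜]
      ProjectiveTensorProduct 𝕜 X Y)) = 1 from hT)
  have hw0' : w ≠ 0 := fun h => hw0 (Subtype.ext h)
  have hwn : 0 < ‖w‖ := norm_pos_iff.mpr hw0'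
  obtain ⟨ψ, hψ1, hψ2⟩ := exists_dual_vector 𝕜 w hwn.ne'
  -- T u = G u • w
  set G : StrongDual 𝕜 (ProjectiveTensorProduct 𝕜 X Y) :=
    ((‖w‖⁻¹ : ℝ) : 𝕜) • (ψ.comp T) with hGdef
  have hTG : T = G.smulRight w := by
    ext u
    obtain ⟨c, hc⟩ := hwspan ⟨T u, LinearMap.mem_range_self _ u⟩
    have hc' : c • w = T u := congrArg Subtype.val hc
    have h1 : G u = ((‖w‖⁻¹ : ℝ) : 𝕜) * ψ (T u) := rfl
    rw [ContinuousLinearMap.smulRight_apply, h1, ← hc', map_smul, hψ2, smul_eq_mul]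
    have h2 : ((‖w‖⁻¹ : ℝ) : 𝕜) * (c * ((‖w‖ : ℝ) : 𝕜)) = c := by
      have h3 : ((‖w‖⁻¹ : ℝ) : 𝕜) * ((‖w‖ : ℝ) : 𝕜) = 1 := by
        rw [← RCLike.ofReal_mul, inv_mul_cancel₀ hwn.ne', RCLike.ofReal_one]
      calc ((‖w‖⁻¹ : ℝ) : 𝕜) * (c * ((‖w‖ : ℝ) : 𝕜))
          = c * (((‖w‖⁻¹ : ℝ) : 𝕜) * ((‖w‖ : ℝ) : 𝕜)) := by ring
        _ = c := by rw [h3, mul_one]
    rw [h2]
  have hTn : ‖T‖ = ‖G‖ * ‖w‖ := by rw [hTG, ContinuousLinearMap.norm_smulRight_apply]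
  have hG0 : 0 < ‖G‖ := by
    rw [norm_pos_iff]
    intro h
    have h1 : T = 0 := by
      rw [hTG, h]; ext u; simp
    obtain ⟨u, hu⟩ := hw
    apply hw0'
    rw [← hu, h1]
    simp
  apply le_antisymm
  · exact (norm_add_le _ _).trans (add_le_add ContinuousLinearMap.norm_id_le le_rfl)
  · refine le_of_forall_pos_le_add fun ε hε => ?_
    set M : ℝ := ‖T‖ with hM'
    have hM0 : 0 ≤ M := norm_nonneg T
    set κ : ℝ := ε / (2 * (M + 1)) with hκ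
    have hκ0 : 0 < κ := by positivity
    have hκM : κ * M ≤ ε / 2 := by
      rw [hκ, div_mul_eq_mul_div, div_le_iff₀ (by positivity)]; nlinarith
    set δ : ℝ := min (κ ^ 2 / 2) (ε / 6) with hδ
    have hδ0 : 0 < δ := lt_min (by positivity) (by linarith)
    have hδ1 : δ ≤ κ ^ 2 / 2 := min_le_left _ _
    have hδ2 : δ ≤ ε / 6 := min_le_right _ _
    set G' : StrongDual 𝕜 (ProjectiveTensorProduct 𝕜 X Y) := ((‖G‖⁻¹ : ℝ) : 𝕜) • G with hG'
    have hG'n : ‖G'‖ = 1 := by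
      rw [hG', norm_smul, RCLike.norm_ofReal, abs_of_pos (inv_pos.mpr hG0),
        inv_mul_cancel₀ hG0.ne']
    set w1 : ProjectiveTensorProduct 𝕜 X Y := ((‖G‖ : ℝ) : 𝕜) • w with hw1
    have hw1n : ‖w1‖ = M := by
      rw [hw1, norm_smul, RCLike.norm_ofReal, abs_of_pos hG0, hTn]
    obtain ⟨t, ht⟩ := dense_incl w1 δ hδ0
    obtain ⟨x, y, hx, hy, h1, h2⟩ := main_slice hDP hL hM t G' hG'n δ hδ0
    set u : ProjectiveTensorProduct 𝕜 X Y := incl (ProjTensor.tmul 𝕜 x y) with hu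
    have hun : ‖u‖ ≤ 1 := by
      rw [hu, norm_incl]
      refine (norm_tmul_le x y).trans ?_
      calc ‖x‖ * ‖y‖ ≤ 1 * 1 := mul_le_mul hx hy (norm_nonneg _) zero_le_one
        _ = 1 := one_mul 1
    have hTu : T u = (G' u) • w1 := by
      have e1 : G' u = ((‖G‖⁻¹ : ℝ) : 𝕜) * G u := rfl
      have e2 : ((‖G‖⁻¹ : ℝ) : 𝕜) * ((‖G‖ : ℝ) : 𝕜) = 1 := by
        rw [← RCLike.ofReal_mul, inv_mul_cancel₀ hG0.ne', RCLike.ofReal_one]
      rw [hTG, ContinuousLinearMap.smulRight_apply, e1, hw1, smul_smul]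
      congr 1
      calc G u = G u * (((‖G‖⁻¹ : ℝ) : 𝕜) * ((‖G‖ : ℝ) : 𝕜)) := by rw [e2, mul_one]
        _ = _ := by ring
    have hG'u : ‖1 - G' u‖ ≤ κ := by
      have e1 : ‖G' u‖ ≤ 1 := by
        refine (G'.le_opNorm u).trans ?_
        rw [hG'n, one_mul]; exact hun
      have e2 : ‖1 - G' u‖ ^ 2 ≤ κ ^ 2 := by
        have e3 : ‖1 - G' u‖ ^ 2 = 1 - 2 * RCLike.re (G' u) + ‖G' u‖ ^ 2 := by
          rw [RCLike.norm_sq_eq_def, RCLike.norm_sq_eq_def, map_sub, map_sub, RCLike.one_re,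
            RCLike.one_im]
          ring
        have e4 : ‖G' u‖ ^ 2 ≤ 1 := by
          calc ‖G' u‖ ^ 2 ≤ 1 ^ 2 := pow_le_pow_left₀ (norm_nonneg _) e1 2
            _ = 1 := one_pow 2
        rw [e3]
        linarith
      exact le_of_sq_le_sq e2 hκ0.le
    have h3 : ‖(ContinuousLinearMap.id 𝕜 (ProjectiveTensorProduct 𝕜 X Y) + T) u‖ ≤
        ‖ContinuousLinearMap.id 𝕜 (ProjectiveTensorProduct 𝕜 X Y) + T‖ := by
      refine ((ContinuousLinearMap.id 𝕜 (ProjectiveTensorProduct 𝕜 X Y) + T).le_opNorm u).trans ?_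
      calc _ ≤ ‖ContinuousLinearMap.id 𝕜 (ProjectiveTensorProduct 𝕜 X Y) + T‖ * 1 :=
            mul_le_mul_of_nonneg_left hun (norm_nonneg _)
        _ = _ := mul_one _
    have h4 : (ContinuousLinearMap.id 𝕜 (ProjectiveTensorProduct 𝕜 X Y) + T) u =
        u + (G' u) • w1 := by
      rw [← hTu]; rfl
    rw [h4] at h3
    have h5 : incl (t + ProjTensor.tmul 𝕜 x y) =
        (u + (G' u) • w1) + (1 - G' u) • w1 - (w1 - incl t) := by
      rw [map_add, sub_smul, one_smul]; abel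
    have h6 : ‖t + ProjTensor.tmul 𝕜 x y‖ ≤ ‖u + (G' u) • w1‖ + κ * M + δ := by
      rw [← norm_incl (𝕜 := 𝕜) (t + ProjTensor.tmul 𝕜 x y), h5]
      refine (norm_sub_le _ _).trans (add_le_add ((norm_add_le _ _).trans
        (add_le_add le_rfl ?_)) ht.le)
      rw [norm_smul, hw1n]
      exact mul_le_mul_of_nonneg_right hG'u hM0
    have h7 : M ≤ ‖t‖ + δ := by
      rw [← hw1n, ← norm_incl (𝕜 := 𝕜) t]
      have e1 : w1 = incl t + (w1 - incl t) := by abel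
      conv_lhs => rw [e1]
      exact (norm_add_le _ _).trans (add_le_add le_rfl ht.le)
    linarith

end Pool.Agent.H130R4.DA
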